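import Pool.Agent.R109.ERW.Words

/-!
Branching bounds and the transfer operator.
-/

namespace R109.ERW

open Finset

variable {N : ℕ} {K : Fin N → Fin N → ℝ} {p η : Fin N → ℝ}

lemma exp_bounds (h : Fin N → ℝ) {s : ℝ} (hs : 0 ≤ s) (r : Fin N) :
    Real.exp (-s * ∑ i, |h i|) ≤ Real.exp (-s * h r) ∧
      Real.exp (-s * h r) ≤ Real.exp (s * ∑ i, |h i|) := by
  have hHr : |h r| ≤ ∑ i, |h i| :=
    Finset.single_le_sum (f := fun r => |h r|) (fun i _ => abs_nonneg _) (Finset.mem_univ r)
  constructor
  · apply Real.exp_le_exp.2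
    have := le_abs_self (h r)
    nlinarith
  · apply Real.exp_le_exp.2
    have := neg_abs_le (h r)
    nlinarith

/-- block bound with exponential functions -/
lemma block_exp (hK : IsStochastic K) (hp : ∀ r, 0 ≤ p r ∧ p r ≤ 1) (hη : IsProbVec η)
    (h : Fin N → ℝ) (x1 x0 s : ℝ) (hs : 0 < s)
    (hg : ∀ r, Real.exp (-s * x1) * (p r * ∑ t, K r t * Real.exp (-s * h t))
        + Real.exp (-s * x0) * ((1 - p r) * ∑ t, K r t * Real.exp (-s * h t))
        ≤ Real.exp (-s * h r)) (k : ℕ) (hk : 1 ≤ k) (n : ℕ) :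
    ∑ b ∈ wordsLE n, (if hf b = true ∧ b.count false = k then
      Real.exp (-s * x1) ^ (b.count true) * W K p η b else 0)
      ≤ Real.exp (2 * s * (∑ i, |h i|) + s * x0 * k) := by
  have h1 := block_bound hK hp hη (g := fun r => Real.exp (-s * h r))
    (a1 := Real.exp (-s * x1)) (a0 := Real.exp (-s * x0))
    (m := Real.exp (-s * ∑ i, |h i|)) (Mx := Real.exp (s * ∑ i, |h i|))
    (Real.exp_pos _) (Real.exp_pos _) (Real.exp_pos _)
    (fun r => (exp_bounds h hs.le r).1) (fun r => (exp_bounds h hs.le r).2) hg k hk n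
  have h2 : Real.exp (-s * ∑ i, |h i|) * Real.exp (-s * x0) ^ k
      = Real.exp (-s * (∑ i, |h i|) - s * x0 * k) := by
    rw [← Real.exp_nat_mul, ← Real.exp_add]; congr 1; ring
  rw [h2, ← Finset.sum_mul, ← le_div_iff₀ (Real.exp_pos _), ← Real.exp_sub] at h1
  refine h1.trans (le_of_eq ?_)
  congr 1; ring

lemma one_sub_div_pow {κ : ℝ} (hκ0 : 0 ≤ κ) (hκ1 : κ ≤ 1) {k K0 : ℕ} (hk : k ≤ K0)
    (hK0 : 1 ≤ K0) : 1 - κ ≤ (1 - κ / K0) ^ k := by
  have hK0' : (1:ℝ) ≤ K0 := by exact_mod_cast hK0
  have h0 : κ / K0 ≤ 1 := by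
    rw [div_le_one (by linarith)]; linarith
  have h00 : 0 ≤ κ / K0 := by positivity
  have h1 : 1 - κ ≤ (1 - κ / K0) ^ K0 := by
    have := one_add_mul_le_pow (a := -(κ / K0)) (by linarith) K0
    have e : 1 + (K0:ℝ) * -(κ / K0) = 1 - κ := by field_simp; ring
    rw [e] at this
    simpa [sub_eq_add_neg] using this
  exact h1.trans (pow_le_pow_of_le_one (by linarith) (by linarith) hk)

lemma right_lemma (hK : IsStochastic K) (hp : ∀ r, 0 ≤ p r ∧ p r ≤ 1) (hη : IsProbVec η)
    {δ : ℝ} (hδ0 : 0 < δ) (hδ1 : δ < 1) (hδ : ∀ r, δ ≤ p r ∧ p r ≤ 1 - δ)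
    (h : Fin N → ℝ) {d ε : ℝ} (hd : 0 < d) (hε : 0 < ε)
    (hh : ∀ r, d ≤ (p r * 1 + (1 - p r) * (-(1 + ε))) + ∑ s, K r s * h s - h r) :
    ∃ c0 : ℝ, 0 < c0 ∧ ∀ c : ℝ, 0 < c → c ≤ c0 →
      (∀ r, Real.exp (-c * 1) * (p r * ∑ t, K r t * Real.exp (-c * h t))
        + Real.exp (-c * (-(1 + ε))) * ((1 - p r) * ∑ t, K r t * Real.exp (-c * h t))
        ≤ Real.exp (-c * h r)) ∧
      ∃ r0 : ℝ, 0 ≤ r0 ∧ r0 < 1 ∧ ∀ n k : ℕ, 1 ≤ k →
        ∑ b ∈ wordsLE n, (if hf b = true ∧ b.count false = k ∧ 0 < b.count true then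
          Real.exp (-c) ^ (b.count true) * W K p η b else 0) ≤ (r0 * Real.exp (-c)) ^ k := by
  obtain ⟨s0, hs0, hsup⟩ := exists_exp_super hK hp h d 1 (-(1 + ε)) hd hh
  set H : ℝ := ∑ i, |h i| with hH
  have hH0 : 0 ≤ H := Finset.sum_nonneg (fun i _ => abs_nonneg _)
  obtain ⟨K0, hK0⟩ := exists_nat_ge (4 * H / ε + 1)
  have hK01 : 1 ≤ K0 := by
    have : (1:ℝ) ≤ K0 := by
      have : 0 ≤ 4 * H / ε := by positivity
      linarith
    exact_mod_cast this
  have hK0' : (1:ℝ) ≤ K0 := by exact_mod_cast hK01
  set κ : ℝ := δ ^ K0 with hκ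
  have hκ0 : 0 < κ := by positivity
  have hκ1 : κ < 1 := pow_lt_one₀ hδ0.le hδ1 (by omega)
  set ρ0 : ℝ := 1 - κ / K0 with hρ0
  have hκK : κ / K0 < 1 := by rw [div_lt_one (by linarith)]; linarith
  have hρpos : 0 < ρ0 := by rw [hρ0]; linarith
  have hρ1 : ρ0 < 1 := by
    rw [hρ0]; have : 0 < κ / K0 := by positivity
    linarith
  have hlog : 0 < -Real.log ρ0 := by
    have := Real.log_neg hρpos hρ1; linarith
  refine ⟨min s0 (-Real.log ρ0 / 2), lt_min hs0 (by linarith), ?_⟩
  intro c hc hc0
  have hcs := hc0.trans (min_le_left _ _)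
  have hcl := hc0.trans (min_le_right _ _)
  refine ⟨hsup c hc hcs, max (ρ0 * Real.exp c) (Real.exp (-c * ε / 2)),
    le_max_of_le_right (Real.exp_pos _).le, ?_, ?_⟩
  · apply max_lt
    · have h1 : Real.exp c < Real.exp (-Real.log ρ0) := Real.exp_lt_exp.2 (by linarith)
      rw [Real.exp_neg, Real.exp_log hρpos] at h1
      calc ρ0 * Real.exp c < ρ0 * ρ0⁻¹ := by gcongr
        _ = 1 := mul_inv_cancel₀ hρpos.ne'
    · rw [Real.exp_lt_one_iff]
      have := mul_pos hc hε
      linarith
  · intro n k hk
    set r0 := max (ρ0 * Real.exp c) (Real.exp (-c * ε / 2)) with hr0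
    rcases le_total k K0 with hkK | hkK
    · -- small k
      have h1 : ∑ b ∈ wordsLE n, (if hf b = true ∧ b.count false = k ∧ 0 < b.count true then
          Real.exp (-c) ^ (b.count true) * W K p η b else 0)
          ≤ ∑ b ∈ wordsLE n, (if hf b = true ∧ b.count false = k ∧ 0 < b.count true then
            W K p η b else 0) := by
        apply Finset.sum_le_sum
        intro b _
        split_ifs
        · have h2 : Real.exp (-c) ^ (b.count true) ≤ 1 :=
            pow_le_one₀ (Real.exp_pos _).le (by rw [Real.exp_le_one_iff]; linarith)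
          have h3 := W_nonneg hK hp hη b
          calc _ ≤ 1 * W K p η b := by gcongr
            _ = _ := one_mul _
        · exact le_refl _
      have h2 := block_pos hK hp hη hδ0.le hδ hδ1.le k hk n
      have h3 : κ ≤ δ ^ k := pow_le_pow_of_le_one hδ0.le hδ1.le hkK
      have h4 := one_sub_div_pow hκ0.le hκ1.le hkK hK01
      have h5 : ρ0 ≤ r0 * Real.exp (-c) := by
        calc ρ0 = ρ0 * Real.exp c * Real.exp (-c) := by
              rw [mul_assoc, ← Real.exp_add]; simp
          _ ≤ r0 * Real.exp (-c) := by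
              gcongr
              exact le_max_left _ _
      have h6 : ρ0 ^ k ≤ (r0 * Real.exp (-c)) ^ k := pow_le_pow_left₀ hρpos.le h5 k
      linarith
    · -- large k
      have h1 : ∑ b ∈ wordsLE n, (if hf b = true ∧ b.count false = k ∧ 0 < b.count true then
          Real.exp (-c) ^ (b.count true) * W K p η b else 0)
          ≤ ∑ b ∈ wordsLE n, (if hf b = true ∧ b.count false = k then
            Real.exp (-c * 1) ^ (b.count true) * W K p η b else 0) := by
        apply Finset.sum_le_sum
        intro b _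
        rw [mul_one]
        by_cases hb : hf b = true ∧ b.count false = k ∧ 0 < b.count true
        · rw [if_pos hb, if_pos ⟨hb.1, hb.2.1⟩]
        · rw [if_neg hb]
          split_ifs
          · exact mul_nonneg (by positivity) (W_nonneg hK hp hη b)
          · exact le_refl _
      have h2 := block_exp hK hp hη h 1 (-(1 + ε)) c hc (hsup c hc hcs) k hk n
      refine h1.trans (h2.trans ?_)
      have h3 : Real.exp (-c * ε / 2) * Real.exp (-c) ≤ r0 * Real.exp (-c) := by
        gcongr; exact le_max_right _ _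
      refine le_trans ?_ (pow_le_pow_left₀ (by positivity) h3 k)
      rw [← Real.exp_add, ← Real.exp_nat_mul]
      apply Real.exp_le_exp.2
      have hkr : 4 * H / ε ≤ k := by
        have : (K0:ℝ) ≤ k := by exact_mod_cast hkK
        linarith
      rw [div_le_iff₀ hε] at hkr
      have : 0 ≤ c * (k * ε - 4 * H) := mul_nonneg hc.le (by linarith)
      rw [← hH]
      nlinarith

lemma left_lemma (hK : IsStochastic K) (hp : ∀ r, 0 ≤ p r ∧ p r ≤ 1) (hη : IsProbVec η)
    {δ : ℝ} (hδ0 : 0 < δ) (hδ1 : δ < 1) (hδ : ∀ r, δ ≤ p r ∧ p r ≤ 1 - δ)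
    (h : Fin N → ℝ) {d ε : ℝ} (hd : 0 < d) (hε : 0 < ε) (hε1 : ε < 1)
    (hh : ∀ r, d ≤ (p r * (-1) + (1 - p r) * (1 - ε)) + ∑ s, K r s * h s - h r)
    (θm : ℝ) (hθm : 0 < θm) :
    ∃ θ : ℝ, 0 < θ ∧ θ ≤ θm ∧
      ∃ r0 : ℝ, 0 ≤ r0 ∧ r0 < 1 ∧ ∀ n k : ℕ, 1 ≤ k →
        ∑ b ∈ wordsLE n, (if hf b = true ∧ b.count false = k ∧ 0 < b.count true then
          Real.exp θ ^ (b.count true) * W K p η b else 0) ≤ (r0 * Real.exp θ) ^ k := by
  obtain ⟨s0, hs0, hsup⟩ := exists_exp_super hK hp h d (-1) (1 - ε) hd hh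
  set H : ℝ := ∑ i, |h i| with hH
  have hH0 : 0 ≤ H := Finset.sum_nonneg (fun i _ => abs_nonneg _)
  obtain ⟨K0, hK0⟩ := exists_nat_ge (4 * H / ε + 1)
  have hK01 : 1 ≤ K0 := by
    have : (1:ℝ) ≤ K0 := by
      have : 0 ≤ 4 * H / ε := by positivity
      linarith
    exact_mod_cast this
  have hK0' : (1:ℝ) ≤ K0 := by exact_mod_cast hK01
  set κ : ℝ := δ ^ K0 with hκ
  have hκ0 : 0 < κ := by positivity
  have hκ1 : κ < 1 := pow_lt_one₀ hδ0.le hδ1 (by omega)
  set C : ℝ := Real.exp (2 * s0 * H + s0 * (1 - ε) * K0) with hC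
  have hC0 : 0 < C := Real.exp_pos _
  set θ : ℝ := min θm (s0 * min 1 (κ / (2 * C))) with hθ
  have hθ0 : 0 < θ := lt_min hθm (mul_pos hs0 (lt_min one_pos (by positivity)))
  have hθs : θ ≤ s0 := by
    calc θ ≤ s0 * min 1 (κ / (2 * C)) := min_le_right _ _
      _ ≤ s0 * 1 := by gcongr; exact min_le_left _ _
      _ = s0 := mul_one _
  have hθC : θ / s0 * C ≤ κ / 2 := by
    have h1 : θ / s0 ≤ κ / (2 * C) := by
      rw [div_le_iff₀ hs0]
      calc θ ≤ s0 * min 1 (κ / (2 * C)) := min_le_right _ _
        _ ≤ s0 * (κ / (2 * C)) := by gcongr; exact min_le_right _ _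
        _ = κ / (2 * C) * s0 := mul_comm _ _
    calc θ / s0 * C ≤ κ / (2 * C) * C := by gcongr
      _ = κ / 2 := by field_simp
  set ρ0 : ℝ := 1 - (κ / 2) / K0 with hρ0
  have hκK : (κ / 2) / K0 < 1 := by rw [div_lt_one (by linarith)]; linarith
  have hρpos : 0 < ρ0 := by rw [hρ0]; linarith
  have hρ1 : ρ0 < 1 := by
    rw [hρ0]; have : 0 < (κ / 2) / K0 := by positivity
    linarith
  refine ⟨θ, hθ0, min_le_left _ _, max ρ0 (Real.exp (-θ * ε / 2)),
    le_max_of_le_right (Real.exp_pos _).le, ?_, ?_⟩
  · apply max_lt hρ1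
    rw [Real.exp_lt_one_iff]
    have := mul_pos hθ0 hε
    linarith
  · intro n k hk
    set r0 := max ρ0 (Real.exp (-θ * ε / 2)) with hr0
    rcases le_total k K0 with hkK | hkK
    · -- small k
      have hconv : ∀ j : ℕ, Real.exp θ ^ j ≤ 1 + θ / s0 * Real.exp s0 ^ j := by
        intro j
        have ht0 : 0 ≤ θ / s0 := by positivity
        have ht1 : θ / s0 ≤ 1 := by rw [div_le_one hs0]; exact hθs
        have := convexOn_exp.2 (Set.mem_univ 0) (Set.mem_univ ((j:ℝ) * s0))
          (by linarith : (0:ℝ) ≤ 1 - θ / s0) ht0 (by ring)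
        simp only [smul_eq_mul, mul_zero, zero_add, Real.exp_zero, mul_one] at this
        rw [← Real.exp_nat_mul, ← Real.exp_nat_mul]
        have e : θ / s0 * (j * s0) = j * θ := by field_simp
        rw [e] at this
        linarith
      have h1 : ∑ b ∈ wordsLE n, (if hf b = true ∧ b.count false = k ∧ 0 < b.count true then
          Real.exp θ ^ (b.count true) * W K p η b else 0)
          ≤ ∑ b ∈ wordsLE n, (if hf b = true ∧ b.count false = k ∧ 0 < b.count true then
            W K p η b else 0) + θ / s0 * ∑ b ∈ wordsLE n,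
            (if hf b = true ∧ b.count false = k then
            Real.exp (-s0 * (-1)) ^ (b.count true) * W K p η b else 0) := by
        rw [Finset.mul_sum, ← Finset.sum_add_distrib]
        apply Finset.sum_le_sum
        intro b _
        have e : -s0 * (-1) = s0 := by ring
        rw [e]
        have h3 := W_nonneg hK hp hη b
        by_cases hb : hf b = true ∧ b.count false = k ∧ 0 < b.count true
        · rw [if_pos hb, if_pos hb, if_pos ⟨hb.1, hb.2.1⟩]
          have := mul_le_mul_of_nonneg_right (hconv (b.count true)) h3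
          linarith
        · rw [if_neg hb, if_neg hb]
          split_ifs
          · positivity
          · simp
      have h2 := block_pos hK hp hη hδ0.le hδ hδ1.le k hk n
      have h2' := block_exp hK hp hη h (-1) (1 - ε) s0 hs0 (hsup s0 hs0 le_rfl) k hk n
      have h2'' : Real.exp (2 * s0 * (∑ i, |h i|) + s0 * (1 - ε) * k) ≤ C := by
        rw [hC]; apply Real.exp_le_exp.2
        have : (k:ℝ) ≤ K0 := by exact_mod_cast hkK
        have : s0 * (1 - ε) * k ≤ s0 * (1 - ε) * K0 :=
          mul_le_mul_of_nonneg_left this (mul_nonneg hs0.le (by linarith))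
        linarith
      have h3 : κ ≤ δ ^ k := pow_le_pow_of_le_one hδ0.le hδ1.le hkK
      have h4 := one_sub_div_pow (κ := κ / 2) (by linarith) (by linarith) hkK hK01
      have h5 : ρ0 ≤ r0 * Real.exp θ := by
        have h6 : (1:ℝ) ≤ Real.exp θ := Real.one_le_exp hθ0.le
        calc ρ0 = ρ0 * 1 := (mul_one _).symm
          _ ≤ r0 * Real.exp θ := mul_le_mul (le_max_left _ _) h6 zero_le_one
              ((hρpos.le).trans (le_max_left _ _))
      have h6 : ρ0 ^ k ≤ (r0 * Real.exp θ) ^ k := pow_le_pow_left₀ hρpos.le h5 k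
      have h7 : θ / s0 * ∑ b ∈ wordsLE n,
            (if hf b = true ∧ b.count false = k then
            Real.exp (-s0 * (-1)) ^ (b.count true) * W K p η b else 0) ≤ θ / s0 * C := by
        apply mul_le_mul_of_nonneg_left (h2'.trans h2'') (by positivity)
      linarith
    · -- large k
      have h1 : ∑ b ∈ wordsLE n, (if hf b = true ∧ b.count false = k ∧ 0 < b.count true then
          Real.exp θ ^ (b.count true) * W K p η b else 0)
          ≤ ∑ b ∈ wordsLE n, (if hf b = true ∧ b.count false = k then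
            Real.exp (-θ * (-1)) ^ (b.count true) * W K p η b else 0) := by
        apply Finset.sum_le_sum
        intro b _
        have e : -θ * (-1) = θ := by ring
        rw [e]
        by_cases hb : hf b = true ∧ b.count false = k ∧ 0 < b.count true
        · rw [if_pos hb, if_pos ⟨hb.1, hb.2.1⟩]
        · rw [if_neg hb]
          split_ifs
          · exact mul_nonneg (by positivity) (W_nonneg hK hp hη b)
          · exact le_refl _
      have h2 := block_exp hK hp hη h (-1) (1 - ε) θ hθ0 (hsup θ hθ0 hθs) k hk n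
      refine h1.trans (h2.trans ?_)
      have h3 : Real.exp (-θ * ε / 2) * Real.exp θ ≤ r0 * Real.exp θ := by
        gcongr; exact le_max_right _ _
      refine le_trans ?_ (pow_le_pow_left₀ (by positivity) h3 k)
      rw [← Real.exp_add, ← Real.exp_nat_mul]
      apply Real.exp_le_exp.2
      have hkr : 4 * H / ε ≤ k := by
        have : (K0:ℝ) ≤ k := by exact_mod_cast hkK
        linarith
      rw [div_le_iff₀ hε] at hkr
      have : 0 ≤ θ * (k * ε - 4 * H) := mul_nonneg hθ0.le (by linarith)
      rw [← hH]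
      nlinarith

/-- transfer operator iterates -/
def G (w : List Bool → ℝ) (n : ℕ) : ℕ → ℕ → ℝ
  | 0, k => if k = 0 then 1 else 0
  | (M + 1), k => ∑ b ∈ wordsLE n,
      if hf b = true ∧ b.count false = k then w b * G w n M (b.count true) else 0

lemma G_nonneg (w : List Bool → ℝ) (hw : ∀ b, 0 ≤ w b) (n M k : ℕ) : 0 ≤ G w n M k := by
  induction M generalizing k with
  | zero => simp only [G]; split_ifs <;> norm_num
  | succ M ih =>
    simp only [G]
    apply Finset.sum_nonneg
    intro b _
    split_ifs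
    · exact mul_nonneg (hw b) (ih _)
    · exact le_refl _

lemma G_zero (w : List Bool → ℝ) (hw : w [] = 1) (n M : ℕ) : G w n M 0 = 1 := by
  induction M with
  | zero => simp [G]
  | succ M ih =>
    simp only [G]
    rw [Finset.sum_eq_single []]
    · simp [hf, hw, ih]
    · intro b _ hb
      rw [if_neg]
      rintro ⟨h1, h2⟩
      cases b with
      | nil => exact hb rfl
      | cons d b =>
        cases d
        · simp at h2
        · simp [hf] at h1
    · intro h
      exact absurd (mem_wordsLE.2 (by simp)) h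

lemma G_le {V : List Bool → ℝ} (hV0 : ∀ b, 0 ≤ V b) (hV1 : V [] = 1) {δ z lam r0 : ℝ}
    (hδ1 : δ ≤ 1) (hz : 0 < z) (hlam : 1 ≤ lam)
    (hrep : ∀ k, V (List.replicate k false) ≤ (1 - δ) ^ k) (hr0 : 0 ≤ r0)
    (hx : lam ^ 2 * (1 - δ) ≤ z) (hy : lam ^ 2 * r0 < 1) (n : ℕ)
    (hblock : ∀ k : ℕ, 1 ≤ k → ∑ b ∈ wordsLE n,
      (if hf b = true ∧ b.count false = k ∧ 0 < b.count true then
          z ^ (b.count true) * V b else 0) ≤ (r0 * z) ^ k) (M k : ℕ) :
    G (fun b => lam ^ b.length * V b) n M k ≤ 1 / (1 - lam ^ 2 * r0) * (z / lam) ^ k := by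
  set A : ℝ := 1 / (1 - lam ^ 2 * r0) with hA
  have hlam0 : 0 < lam := by linarith
  have hy0 : 0 ≤ lam ^ 2 * r0 := by positivity
  have hA1 : 1 ≤ A := by
    rw [hA, le_div_iff₀ (by linarith)]; linarith
  have hAeq : 1 + A * (lam ^ 2 * r0) = A := by
    rw [hA]; field_simp [show (1 - lam ^ 2 * r0) ≠ 0 by linarith]; ring
  induction M generalizing k with
  | zero =>
    simp only [G]
    split_ifs with hk
    · subst hk; simpa using hA1
    · positivity
  | succ M ih =>
    rcases Nat.eq_zero_or_pos k with hk | hk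
    · subst hk
      rw [G_zero _ (by simp [hV1])]
      simpa using hA1
    · simp only [G]
      have hsplit : ∑ b ∈ wordsLE n, (if hf b = true ∧ b.count false = k then
          lam ^ b.length * V b * G (fun b => lam ^ b.length * V b) n M (b.count true) else 0)
          ≤ ∑ b ∈ wordsLE n, (if b = List.replicate k false then lam ^ k * (1 - δ) ^ k else 0)
            + A * lam ^ k * ∑ b ∈ wordsLE n,
            (if hf b = true ∧ b.count false = k ∧ 0 < b.count true then
              z ^ (b.count true) * V b else 0) := by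
        rw [Finset.mul_sum, ← Finset.sum_add_distrib]
        apply Finset.sum_le_sum
        intro b _
        have hVb := hV0 b
        by_cases hb : hf b = true ∧ b.count false = k
        · rw [if_pos hb]
          rcases Nat.eq_zero_or_pos (b.count true) with h0 | h0
          · have hbrep := eq_replicate_of_count h0
            rw [hb.2] at hbrep
            have hneg : ¬ (hf b = true ∧ b.count false = k ∧ 0 < b.count true) := by
              rintro ⟨_, _, h3⟩; omega
            rw [if_pos hbrep, if_neg hneg, h0, G_zero _ (by simp [hV1]), mul_zero, add_zero,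
              mul_one]
            have hlen : b.length = k := by rw [hbrep]; simp
            rw [hlen]
            have h1δ := hrep k
            rw [hbrep]
            gcongr
          · have hposi : (if hf b = true ∧ b.count false = k ∧ 0 < b.count true then
              z ^ (b.count true) * V b else 0) = z ^ (b.count true) * V b :=
              if_pos ⟨hb.1, hb.2, h0⟩
            rw [hposi]
            have hlen : b.length = k + b.count true := by
              rw [← hb.2]
              have := List.count_true_add_count_false b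
              omega
            have h1 : (0:ℝ) ≤ (if b = List.replicate k false then lam ^ k * (1 - δ) ^ k else 0) := by
              split_ifs
              · have : 0 ≤ 1 - δ := by linarith
                positivity
              · exact le_refl _
            have h2 : lam ^ b.length * V b * G (fun b => lam ^ b.length * V b) n M (b.count true)
                ≤ A * lam ^ k * (z ^ (b.count true) * V b) := by
              calc lam ^ b.length * V b * G (fun b => lam ^ b.length * V b) n M (b.count true)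
                  ≤ lam ^ b.length * V b * (A * (z / lam) ^ (b.count true)) := by
                    gcongr; exact ih _
                _ = A * lam ^ k * (z ^ (b.count true) * V b) := by
                    rw [hlen, pow_add, div_pow]; field_simp
            linarith
        · have hneg : (if hf b = true ∧ b.count false = k ∧ 0 < b.count true then
              z ^ (b.count true) * V b else 0) = 0 := if_neg (fun h => hb ⟨h.1, h.2.1⟩)
          rw [if_neg hb, hneg]
          have : 0 ≤ 1 - δ := by linarith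
          split_ifs
          · simp; positivity
          · simp
      have hfirst : ∑ b ∈ wordsLE n, (if b = List.replicate k false then lam ^ k * (1 - δ) ^ k
          else 0) ≤ lam ^ k * (1 - δ) ^ k := by
        rw [Finset.sum_ite_eq']
        have : 0 ≤ 1 - δ := by linarith
        split_ifs
        · exact le_refl _
        · positivity
      have hb := hblock k hk
      have hmain : lam ^ k * (1 - δ) ^ k + A * lam ^ k * (r0 * z) ^ k ≤ A * (z / lam) ^ k := by
        have h1δ : 0 ≤ 1 - δ := by linarith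
        have e1 : lam ^ k * (1 - δ) ^ k = (lam ^ 2 * (1 - δ)) ^ k / lam ^ k := by
          rw [mul_pow, ← pow_mul, mul_comm 2 k, pow_mul]; field_simp
        have e2 : A * lam ^ k * (r0 * z) ^ k = A * (lam ^ 2 * r0) ^ k * (z ^ k / lam ^ k) := by
          rw [mul_pow, mul_pow, ← pow_mul, mul_comm 2 k, pow_mul]; field_simp
        rw [e1, e2, div_pow]
        have h3 : (lam ^ 2 * (1 - δ)) ^ k / lam ^ k ≤ z ^ k / lam ^ k := by
          gcongr
        have h4 : (lam ^ 2 * r0) ^ k ≤ lam ^ 2 * r0 := by
          calc (lam ^ 2 * r0) ^ k ≤ (lam ^ 2 * r0) ^ 1 :=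
                pow_le_pow_of_le_one hy0 hy.le hk
            _ = _ := pow_one _
        have h5 : 0 ≤ z ^ k / lam ^ k := by positivity
        calc (lam ^ 2 * (1 - δ)) ^ k / lam ^ k + A * (lam ^ 2 * r0) ^ k * (z ^ k / lam ^ k)
            ≤ z ^ k / lam ^ k + A * (lam ^ 2 * r0) * (z ^ k / lam ^ k) := by
              gcongr
          _ = (1 + A * (lam ^ 2 * r0)) * (z ^ k / lam ^ k) := by ring
          _ = A * (z ^ k / lam ^ k) := by rw [hAeq]
      have h6 : A * lam ^ k * ∑ b ∈ wordsLE n,
            (if hf b = true ∧ b.count false = k ∧ 0 < b.count true then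
              z ^ (b.count true) * V b else 0) ≤ A * lam ^ k * (r0 * z) ^ k := by
        gcongr
      linarith

end R109.ERW
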