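import Pool.Agent.R109.ERW.Defs

/-!
Finite Markov chains: closed irreducible classes, uniqueness of the stationary distribution,
correctors, exponential supermartingale functions.
-/

namespace R109.ERW

open Finset

variable {N : ℕ} {K : Fin N → Fin N → ℝ}

lemma exists_class_in (D : Set (Fin N)) (hD : D.Nonempty)
    (hcl : ∀ r ∈ D, ∀ s, 0 < K r s → s ∈ D) :
    ∃ C ⊆ D, IsClosedIrreducibleClass K C := by
  classical
  -- minimal closed nonempty subset
  let S : Set (Set (Fin N)) := {C | C ⊆ D ∧ C.Nonempty ∧ ∀ r ∈ C, ∀ s, 0 < K r s → s ∈ C}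
  have hS : S.Finite := Set.toFinite S
  have hne : S.Nonempty := ⟨D, le_refl _, hD, hcl⟩
  obtain ⟨C, hC⟩ := hS.exists_minimal hne
  obtain ⟨⟨hCD, hCne, hCcl⟩, hmin⟩ := hC
  refine ⟨C, hCD, hCne, hCcl, ?_⟩
  intro r hr s hs
  let E : Set (Fin N) := {t | Relation.ReflTransGen (fun a b => 0 < K a b) r t}
  have hEC : E ⊆ C := by
    intro t ht
    induction ht with
    | refl => exact hr
    | tail _ hbc ih => exact hCcl _ ih _ hbc
  have hE : E ∈ S := by
    refine ⟨hEC.trans hCD, ⟨r, Relation.ReflTransGen.refl⟩, ?_⟩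
    intro a ha b hab
    exact Relation.ReflTransGen.tail ha hab
  exact hmin hE hEC hs

/-- the positive part of an invariant signed vector has a closed support -/
lemma closed_of_invariant (hK : IsStochastic K) (ρ : Fin N → ℝ)
    (hρ : ∀ s, ∑ r, ρ r * K r s = ρ s) :
    ∀ r, 0 < ρ r → ∀ s, 0 < K r s → 0 < ρ s := by
  classical
  set Pset : Finset (Fin N) := Finset.univ.filter (fun r => 0 < ρ r) with hP
  have h1 : ∑ s ∈ Pset, ρ s ≤ ∑ s ∈ Pset, ∑ r ∈ Pset, ρ r * K r s := by
    apply Finset.sum_le_sum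
    intro s _
    rw [← hρ s, ← Finset.sum_filter_add_sum_filter_not Finset.univ (fun r => 0 < ρ r)]
    have : ∑ x ∈ Finset.univ.filter (fun r => ¬ 0 < ρ r), ρ x * K x s ≤ 0 := by
      apply Finset.sum_nonpos
      intro x hx
      simp only [Finset.mem_filter, Finset.mem_univ, true_and, not_lt] at hx
      exact mul_nonpos_of_nonpos_of_nonneg hx (hK.1 _ _)
    linarith
  have h2 : ∑ s ∈ Pset, ∑ r ∈ Pset, ρ r * K r s = ∑ r ∈ Pset, ρ r * ∑ s ∈ Pset, K r s := by
    rw [Finset.sum_comm]
    apply Finset.sum_congr rfl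
    intro r _
    rw [Finset.mul_sum]
  have hle : ∀ r, ∑ s ∈ Pset, K r s ≤ 1 := by
    intro r
    rw [← hK.2 r]
    exact Finset.sum_le_sum_of_subset_of_nonneg (Finset.subset_univ _) (fun i _ _ => hK.1 _ _)
  have h3 : ∑ r ∈ Pset, ρ r * (1 - ∑ s ∈ Pset, K r s) = 0 := by
    apply le_antisymm
    · have : ∑ r ∈ Pset, ρ r * (1 - ∑ s ∈ Pset, K r s)
          = ∑ r ∈ Pset, ρ r - ∑ r ∈ Pset, ρ r * ∑ s ∈ Pset, K r s := by
        rw [← Finset.sum_sub_distrib]
        apply Finset.sum_congr rfl; intro r _; ring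
      linarith
    · apply Finset.sum_nonneg
      intro r hr
      simp only [hP, Finset.mem_filter, Finset.mem_univ, true_and] at hr
      exact mul_nonneg hr.le (by linarith [hle r])
  intro r hr s hs
  by_contra hcon
  have hrP : r ∈ Pset := by simp [hP, hr]
  have h4 : ρ r * (1 - ∑ s ∈ Pset, K r s) = 0 := by
    have := (Finset.sum_eq_zero_iff_of_nonneg (s := Pset)
      (f := fun r => ρ r * (1 - ∑ s ∈ Pset, K r s)) ?_).1 h3 r hrP
    · exact this
    · intro i hi
      simp only [hP, Finset.mem_filter, Finset.mem_univ, true_and] at hi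
      exact mul_nonneg hi.le (by linarith [hle i])
  have h5 : ∑ s ∈ Pset, K r s = 1 := by
    rcases mul_eq_zero.1 h4 with h | h
    · linarith
    · linarith
  have h6 : ∑ t ∈ insert s Pset, K r t ≤ 1 := by
    rw [← hK.2 r]
    exact Finset.sum_le_sum_of_subset_of_nonneg (Finset.subset_univ _) (fun i _ _ => hK.1 _ _)
  rw [Finset.sum_insert (by simp [hP, hcon])] at h6
  linarith

lemma stationary_unique (hK : IsStochastic K)
    (huniq : ∃! C : Set (Fin N), IsClosedIrreducibleClass K C)
    {μ ν : Fin N → ℝ} (hμ : IsStationary K μ) (hν : IsStationary K ν) : ν = μ := by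
  classical
  by_contra hne
  set ρ : Fin N → ℝ := fun r => ν r - μ r with hρdef
  have hsum : ∑ r, ρ r = 0 := by
    simp [hρdef, Finset.sum_sub_distrib, hμ.1.2, hν.1.2]
  have hinv : ∀ s, ∑ r, ρ r * K r s = ρ s := by
    intro s
    simp only [hρdef, sub_mul, Finset.sum_sub_distrib, hμ.2 s, hν.2 s]
  have hinv' : ∀ s, ∑ r, (-ρ r) * K r s = -ρ s := by
    intro s
    rw [← hinv s, ← Finset.sum_neg_distrib]
    apply Finset.sum_congr rfl; intro r _; ring
  obtain ⟨t, ht⟩ : ∃ t, ρ t ≠ 0 := by
    by_contra h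
    push Not at h
    apply hne
    funext r
    have := h r
    simp only [hρdef] at this
    linarith
  have hpos : ∃ t, 0 < ρ t := by
    by_contra h
    push Not at h
    have := (Finset.sum_eq_zero_iff_of_nonpos (s := Finset.univ) (fun i _ => h i)).1 hsum t
      (Finset.mem_univ _)
    exact ht this
  have hneg : ∃ t, 0 < -ρ t := by
    by_contra h
    push Not at h
    have := (Finset.sum_eq_zero_iff_of_nonneg (s := Finset.univ)
      (fun i _ => by linarith [h i] : ∀ i ∈ Finset.univ, 0 ≤ ρ i)).1 hsum t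
      (Finset.mem_univ _)
    exact ht this
  obtain ⟨C1, hC1, hcl1⟩ := exists_class_in (K := K) {r | 0 < ρ r} hpos
    (fun r hr s hs => closed_of_invariant hK ρ hinv r hr s hs)
  obtain ⟨C2, hC2, hcl2⟩ := exists_class_in (K := K) {r | 0 < -ρ r} hneg
    (fun r hr s hs => closed_of_invariant hK (fun r => -ρ r) hinv' r hr s hs)
  have : C1 = C2 := huniq.unique hcl1 hcl2
  obtain ⟨r, hr⟩ := hcl1.1
  have h1 : 0 < ρ r := hC1 hr
  have h2 : 0 < -ρ r := hC2 (this ▸ hr)
  linarith

/-- existence of a corrector -/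
lemma exists_corrector (hK : IsStochastic K) {μ : Fin N → ℝ}
    (hμu : ∀ ν, IsStationary K ν → ν = μ) (f : Fin N → ℝ) (hf : 0 < ∑ r, μ r * f r)
    (hN : 0 < N) :
    ∃ (h : Fin N → ℝ) (d : ℝ), 0 < d ∧ ∀ r, d ≤ f r + ∑ s, K r s * h s - h r := by
  classical
  by_contra hcon
  push Not at hcon
  let s : Set (Fin N → ℝ) := {v | ∀ i, 0 < v i}
  let t : Set (Fin N → ℝ) := Set.range (fun h : Fin N → ℝ => fun r => f r + ∑ s, K r s * h s - h r)
  have hsc : Convex ℝ s := by
    intro x hx y hy a b ha hb hab i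
    simp only [Pi.add_apply, Pi.smul_apply, smul_eq_mul]
    rcases eq_or_lt_of_le ha with h0 | h0
    · have : b = 1 := by linarith
      rw [← h0, this]; simp; exact hy i
    · have := mul_pos h0 (hx i)
      have := mul_nonneg hb (hy i).le
      linarith
  have hso : IsOpen s := by
    have : s = ⋂ i, {v : Fin N → ℝ | 0 < v i} := by ext v; simp [s]
    rw [this]
    exact isOpen_iInter_of_finite (fun i => isOpen_lt continuous_const (continuous_apply i))
  have htc : Convex ℝ t := by
    rintro _ ⟨x, rfl⟩ _ ⟨y, rfl⟩ a b ha hb hab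
    refine ⟨fun i => a * x i + b * y i, ?_⟩
    funext r
    simp only [Pi.add_apply, Pi.smul_apply, smul_eq_mul]
    have : ∑ s, K r s * (a * x s + b * y s) = a * ∑ s, K r s * x s + b * ∑ s, K r s * y s := by
      rw [Finset.mul_sum, Finset.mul_sum, ← Finset.sum_add_distrib]
      apply Finset.sum_congr rfl; intro i _; ring
    rw [this]
    have hb' : b = 1 - a := by linarith
    rw [hb']; ring
  have hdisj : Disjoint s t := by
    rw [Set.disjoint_left]
    rintro v hv ⟨h, rfl⟩
    have hne : (Finset.univ : Finset (Fin N)).Nonempty := ⟨⟨0, hN⟩, Finset.mem_univ _⟩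
    obtain ⟨r0, _, hr0⟩ := Finset.exists_min_image Finset.univ
      (fun r => f r + ∑ s, K r s * h s - h r) hne
    obtain ⟨r, hr⟩ := hcon h (f r0 + ∑ s, K r0 s * h s - h r0) (hv r0)
    have := hr0 r (Finset.mem_univ _)
    linarith
  obtain ⟨φ, u, hφs, hφt⟩ := geometric_hahn_banach_open hsc hso htc hdisj
  -- φ ≤ 0 on s, u ≥ 0
  have h1 : ∀ a ∈ s, φ a ≤ 0 := by
    intro a ha
    by_contra hpos
    push Not at hpos
    have hmem : ∀ c : ℝ, 0 < c → c • a ∈ s := by
      intro c hc i
      simp only [Pi.smul_apply, smul_eq_mul]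
      exact mul_pos hc (ha i)
    obtain ⟨c, hc0, hc⟩ : ∃ c : ℝ, 0 < c ∧ u < c * φ a := by
      refine ⟨(|u| + 1) / φ a, by positivity, ?_⟩
      rw [div_mul_cancel₀ _ hpos.ne']
      linarith [le_abs_self u]
    have := hφs _ (hmem c hc0)
    rw [map_smul, smul_eq_mul] at this
    linarith
  have hone : (fun _ => (1:ℝ)) ∈ s := fun i => one_pos
  have hu : 0 ≤ u := by
    by_contra hneg
    push Not at hneg
    have hb := h1 _ hone
    -- small multiple
    obtain ⟨c, hc0, hc⟩ : ∃ c : ℝ, 0 < c ∧ u < c * φ (fun _ => (1:ℝ)) := by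
      rcases eq_or_lt_of_le hb with h0 | h0
      · exact ⟨1, one_pos, by rw [h0]; simpa using hneg⟩
      · refine ⟨(-u) / (2 * (-φ (fun _ => (1:ℝ)))), div_pos (by linarith) (by linarith), ?_⟩
        have : (-u) / (2 * (-φ (fun _ => (1:ℝ)))) * φ (fun _ => (1:ℝ)) = u / 2 := by
          have hne : φ (fun _ => (1:ℝ)) ≠ 0 := h0.ne
          generalize φ (fun _ => (1:ℝ)) = z at hne
          field_simp
        rw [this]; linarith
    have hm : c • (fun _ => (1:ℝ)) ∈ s := by
      intro i; simp only [Pi.smul_apply, smul_eq_mul, mul_one]; exact hc0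
    have := hφs _ hm
    rw [map_smul, smul_eq_mul] at this
    linarith
  -- linear functional in coordinates
  have hφ : ∀ v : Fin N → ℝ, φ v = ∑ i, φ (Pi.single i 1) * v i := by
    intro v
    conv_lhs => rw [← Finset.univ_sum_single v]
    rw [map_sum]
    apply Finset.sum_congr rfl
    intro i _
    have : (Pi.single i (v i) : Fin N → ℝ) = v i • Pi.single i 1 := by
      rw [← Pi.single_smul]; simp
    rw [this, map_smul, smul_eq_mul]; ring
  -- nonpositivity of coordinates
  have hcoord : ∀ i, φ (Pi.single i 1) ≤ 0 := by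
    intro i
    by_contra hpos
    push Not at hpos
    -- a = single i 1 + ε 1
    have hlim : ∀ ε : ℝ, 0 < ε → φ (Pi.single i 1) + ε * φ (fun _ => (1:ℝ)) ≤ 0 := by
      intro ε hε
      have hm : (Pi.single i 1 + ε • (fun _ => (1:ℝ)) : Fin N → ℝ) ∈ s := by
        intro j
        simp only [Pi.add_apply, Pi.smul_apply, smul_eq_mul, mul_one]
        have : (0:ℝ) ≤ (Pi.single i 1 : Fin N → ℝ) j := by
          by_cases hij : j = i
          · subst hij; simp
          · simp [hij]
        linarith
      have := h1 _ hm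
      rw [map_add, map_smul, smul_eq_mul] at this
      exact this
    have hb := h1 _ hone
    rcases eq_or_lt_of_le hb with h0 | h0
    · have := hlim 1 one_pos
      rw [h0] at this; linarith
    · have := hlim (φ (Pi.single i 1) / (2 * (-φ (fun _ => (1:ℝ)))))
        (div_pos hpos (by linarith))
      have h3 : φ (Pi.single i 1) / (2 * (-φ (fun _ => (1:ℝ)))) * φ (fun _ => (1:ℝ))
          = - φ (Pi.single i 1) / 2 := by
        have hne : φ (fun _ => (1:ℝ)) ≠ 0 := h0.ne
        generalize φ (fun _ => (1:ℝ)) = z at hne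
        field_simp
      rw [h3] at this; linarith
  -- invariance
  have hT : ∀ h : Fin N → ℝ, φ (fun r => ∑ s, K r s * h s - h r) = 0 := by
    intro h
    have key : ∀ c : ℝ, u ≤ φ f + c * φ (fun r => ∑ s, K r s * h s - h r) := by
      intro c
      have := hφt _ ⟨fun i => c * h i, rfl⟩
      beta_reduce at this
      have heq : (fun r => f r + ∑ s, K r s * (c * h s) - c * h r)
          = f + c • (fun r => ∑ s, K r s * h s - h r) := by
        funext r
        simp only [Pi.add_apply, Pi.smul_apply, smul_eq_mul]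
        have : ∑ s, K r s * (c * h s) = c * ∑ s, K r s * h s := by
          rw [Finset.mul_sum]; apply Finset.sum_congr rfl; intro i _; ring
        rw [this]; ring
      rw [heq, map_add, map_smul, smul_eq_mul] at this
      exact this
    by_contra hne
    set A := φ (fun r => ∑ s, K r s * h s - h r) with hA
    have := key ((u - φ f - 1) / A)
    rw [div_mul_cancel₀ _ hne] at this
    linarith
  have hφf : 0 ≤ φ f := by
    have := hφt _ ⟨fun _ => 0, rfl⟩
    beta_reduce at this
    have heq : (fun r => f r + ∑ s, K r s * (0:ℝ) - 0) = f := by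
      funext r; simp
    rw [heq] at this
    linarith
  -- the stationary vector
  set c : Fin N → ℝ := fun i => - φ (Pi.single i 1) with hc
  have hc0 : ∀ i, 0 ≤ c i := fun i => by simp only [hc]; linarith [hcoord i]
  have hcsum : 0 < ∑ i, c i := by
    rcases eq_or_lt_of_le (Finset.sum_nonneg (fun i (_ : i ∈ Finset.univ) => hc0 i)) with h0 | h0
    · exfalso
      have hz : ∀ i, c i = 0 := by
        intro i
        exact (Finset.sum_eq_zero_iff_of_nonneg (fun i _ => hc0 i)).1 h0.symm i (Finset.mem_univ _)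
      have hz' : ∀ v, φ v = 0 := by
        intro v
        rw [hφ v]
        apply Finset.sum_eq_zero
        intro i _
        have := hz i
        simp only [hc] at this
        have h' : φ (Pi.single i 1) = 0 := by linarith
        rw [h', zero_mul]
      have hA := hφs _ hone
      rw [hz'] at hA
      have hB := hφt _ ⟨fun _ => 0, rfl⟩
      rw [hz'] at hB
      linarith
    · exact h0
  have hcinv : ∀ s, ∑ r, c r * K r s = c s := by
    intro s
    have := hT (Pi.single s 1)
    rw [hφ] at this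
    have h2 : ∀ r, ∑ t, K r t * (Pi.single s (1:ℝ) : Fin N → ℝ) t = K r s := by
      intro r
      rw [Finset.sum_eq_single s]
      · simp
      · intro b _ hb; simp [hb]
      · intro h; exact absurd (Finset.mem_univ _) h
    simp only [h2] at this
    have h3 : ∑ i, φ (Pi.single i 1) * (K i s - (Pi.single s (1:ℝ) : Fin N → ℝ) i)
        = ∑ i, φ (Pi.single i 1) * K i s - φ (Pi.single s 1) := by
      simp only [mul_sub, Finset.sum_sub_distrib]
      congr 1
      rw [Finset.sum_eq_single s]
      · simp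
      · intro b _ hb; simp [hb]
      · intro h; exact absurd (Finset.mem_univ _) h
    rw [h3] at this
    simp only [hc, neg_mul, Finset.sum_neg_distrib]
    linarith
  have hstat : IsStationary K (fun i => c i / ∑ j, c j) := by
    refine ⟨⟨fun i => div_nonneg (hc0 i) hcsum.le, ?_⟩, ?_⟩
    · rw [← Finset.sum_div, div_self hcsum.ne']
    · intro s
      beta_reduce
      rw [← hcinv s, Finset.sum_div]
      apply Finset.sum_congr rfl
      intro i _
      ring
  have hμc := hμu _ hstat
  rw [← hμc] at hf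
  have : ∑ r, c r / (∑ j, c j) * f r = (∑ r, c r * f r) / ∑ j, c j := by
    rw [Finset.sum_div]; apply Finset.sum_congr rfl; intro i _; ring
  rw [this] at hf
  have hpos : 0 < ∑ r, c r * f r := by
    by_contra hcon2
    push Not at hcon2
    have := div_nonpos_of_nonpos_of_nonneg hcon2 hcsum.le
    linarith
  have : ∑ r, c r * f r = - φ f := by
    rw [hφ f, ← Finset.sum_neg_distrib]
    apply Finset.sum_congr rfl; intro i _; simp [hc]
  linarith

/-- exponential supersolutions -/
lemma exists_exp_super (hK : IsStochastic K) {p : Fin N → ℝ} (hp : ∀ r, 0 ≤ p r ∧ p r ≤ 1)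
    (h : Fin N → ℝ) (d x1 x0 : ℝ) (hd : 0 < d)
    (hh : ∀ r, d ≤ (p r * x1 + (1 - p r) * x0) + ∑ s, K r s * h s - h r) :
    ∃ s0 : ℝ, 0 < s0 ∧ ∀ s : ℝ, 0 < s → s ≤ s0 → ∀ r,
      Real.exp (-s * x1) * (p r * ∑ t, K r t * Real.exp (-s * h t))
        + Real.exp (-s * x0) * ((1 - p r) * ∑ t, K r t * Real.exp (-s * h t))
        ≤ Real.exp (-s * h r) := by
  classical
  set H : ℝ := ∑ r, |h r| with hH
  have hHr : ∀ r, |h r| ≤ H := fun r =>
    Finset.single_le_sum (f := fun r => |h r|) (fun i _ => abs_nonneg _) (Finset.mem_univ r)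
  have hH0 : 0 ≤ H := Finset.sum_nonneg (fun i _ => abs_nonneg _)
  set B : ℝ := |x1| + |x0| + 2 * H + 1 with hB
  have hB0 : 0 < B := by positivity
  refine ⟨min (1 / B) (d / B ^ 2), lt_min (by positivity) (by positivity), ?_⟩
  intro s hs hs0 r
  have hs1 : s * B ≤ 1 := by
    have := hs0.trans (min_le_left _ _)
    rwa [le_div_iff₀ hB0] at this
  have hs2 : s * B ^ 2 ≤ d := by
    have := hs0.trans (min_le_right _ _)
    rwa [le_div_iff₀ (by positivity)] at this
  have hexp : ∀ y : ℝ, |y| ≤ B → Real.exp (-s * y) ≤ 1 - s * y + s ^ 2 * B ^ 2 := by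
    intro y hy
    have h1 : |(-s * y)| ≤ 1 := by
      rw [abs_mul, abs_neg, abs_of_pos hs]
      calc s * |y| ≤ s * B := by gcongr
        _ ≤ 1 := hs1
    have h2 := Real.abs_exp_sub_one_sub_id_le h1
    have h3 := le_abs_self (Real.exp (-s * y) - 1 - (-s * y))
    have h4 : (-s * y) ^ 2 ≤ s ^ 2 * B ^ 2 := by
      rw [mul_pow, neg_sq]
      have : y ^ 2 ≤ B ^ 2 := by
        rw [← sq_abs y]; gcongr
      gcongr
    linarith
  have hterm : ∀ (x : ℝ), |x| ≤ |x1| + |x0| → ∀ t,
      Real.exp (-s * (x + h t - h r)) ≤ 1 - s * (x + h t - h r) + s ^ 2 * B ^ 2 := by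
    intro x hx t
    apply hexp
    calc |x + h t - h r| ≤ |x + h t| + |h r| := abs_sub _ _
      _ ≤ |x| + |h t| + |h r| := by linarith [abs_add_le x (h t)]
      _ ≤ B := by rw [hB]; linarith [hHr t, hHr r]
  have hsumx : ∀ (x : ℝ), |x| ≤ |x1| + |x0| →
      ∑ t, K r t * Real.exp (-s * (x + h t - h r))
        ≤ 1 - s * (x + ∑ t, K r t * h t - h r) + s ^ 2 * B ^ 2 := by
    intro x hx
    calc ∑ t, K r t * Real.exp (-s * (x + h t - h r))
        ≤ ∑ t, K r t * (1 - s * (x + h t - h r) + s ^ 2 * B ^ 2) := by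
          apply Finset.sum_le_sum
          intro t _
          exact mul_le_mul_of_nonneg_left (hterm x hx t) (hK.1 _ _)
      _ = ∑ t, (K r t * (1 - s * (x - h r) + s ^ 2 * B ^ 2) - s * (K r t * h t)) := by
          apply Finset.sum_congr rfl; intro t _; ring
      _ = 1 - s * (x + ∑ t, K r t * h t - h r) + s ^ 2 * B ^ 2 := by
          rw [Finset.sum_sub_distrib, ← Finset.sum_mul, hK.2 r, ← Finset.mul_sum]; ring
  have e1 : ∀ x : ℝ, Real.exp (-s * x) * ∑ t, K r t * Real.exp (-s * h t)
      = Real.exp (-s * h r) * ∑ t, K r t * Real.exp (-s * (x + h t - h r)) := by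
    intro x
    rw [Finset.mul_sum, Finset.mul_sum]
    apply Finset.sum_congr rfl
    intro t _
    have : Real.exp (-s * x) * Real.exp (-s * h t)
        = Real.exp (-s * h r) * Real.exp (-s * (x + h t - h r)) := by
      rw [← Real.exp_add, ← Real.exp_add]; congr 1; ring
    calc Real.exp (-s * x) * (K r t * Real.exp (-s * h t))
        = K r t * (Real.exp (-s * x) * Real.exp (-s * h t)) := by ring
      _ = K r t * (Real.exp (-s * h r) * Real.exp (-s * (x + h t - h r))) := by rw [this]
      _ = _ := by ring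
  have hx1 := hsumx x1 (by linarith [abs_nonneg x0])
  have hx0 := hsumx x0 (by linarith [abs_nonneg x1])
  have hpr := hp r
  have hhr := hh r
  calc Real.exp (-s * x1) * (p r * ∑ t, K r t * Real.exp (-s * h t))
        + Real.exp (-s * x0) * ((1 - p r) * ∑ t, K r t * Real.exp (-s * h t))
      = p r * (Real.exp (-s * x1) * ∑ t, K r t * Real.exp (-s * h t))
        + (1 - p r) * (Real.exp (-s * x0) * ∑ t, K r t * Real.exp (-s * h t)) := by ring
    _ = Real.exp (-s * h r) * (p r * ∑ t, K r t * Real.exp (-s * (x1 + h t - h r))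
        + (1 - p r) * ∑ t, K r t * Real.exp (-s * (x0 + h t - h r))) := by
        rw [e1, e1]; ring
    _ ≤ Real.exp (-s * h r) * (p r * (1 - s * (x1 + ∑ t, K r t * h t - h r) + s ^ 2 * B ^ 2)
        + (1 - p r) * (1 - s * (x0 + ∑ t, K r t * h t - h r) + s ^ 2 * B ^ 2)) := by
        apply mul_le_mul_of_nonneg_left _ (Real.exp_pos _).le
        apply add_le_add
        · exact mul_le_mul_of_nonneg_left hx1 hpr.1
        · exact mul_le_mul_of_nonneg_left hx0 (by linarith [hpr.2])
    _ ≤ Real.exp (-s * h r) * 1 := by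
        apply mul_le_mul_of_nonneg_left _ (Real.exp_pos _).le
        have h5 : p r * (1 - s * (x1 + ∑ t, K r t * h t - h r) + s ^ 2 * B ^ 2)
            + (1 - p r) * (1 - s * (x0 + ∑ t, K r t * h t - h r) + s ^ 2 * B ^ 2)
            = 1 - s * ((p r * x1 + (1 - p r) * x0) + ∑ t, K r t * h t - h r)
              + s * (s * B ^ 2) := by ring
        rw [h5]
        have h6 : s * d ≤ s * ((p r * x1 + (1 - p r) * x0) + ∑ t, K r t * h t - h r) := by
          gcongr
        have h7 : s * (s * B ^ 2) ≤ s * d := by gcongr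
        linarith
    _ = Real.exp (-s * h r) := mul_one _

end R109.ERW
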