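import Pool.Agent.R109.ERW.Bounds

/-!
The bound for the sum over all stack families, in the case of positive drift.
-/

namespace R109.ERW

open Finset

variable {N : ℕ} {K : Fin N → Fin N → ℝ} {p η μ : Fin N → ℝ}

lemma vec_flip (b : List Bool) :
    vec K p η (b.map not) = vec K (fun r => 1 - p r) η b := by
  induction b with
  | nil => rfl
  | cons d b ih =>
    funext s
    simp only [List.map_cons, vec, ih]
    apply Finset.sum_congr rfl
    intro r _
    cases d <;> simp [lp]

lemma W_flip (b : List Bool) : W K p η (b.map not) = W K (fun r => 1 - p r) η b := by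
  simp only [W, vec_flip]

lemma geom_words (hK : IsStochastic K) (hp : ∀ r, 0 ≤ p r ∧ p r ≤ 1) (hη : IsProbVec η)
    {g : Fin N → ℝ} {a1 a0 ρ m Mx : ℝ} (ha1 : 0 < a1) (ha0 : 0 < a0) (hm : 0 < m)
    (hgm : ∀ r, m ≤ g r) (hgM : ∀ r, g r ≤ Mx) (hρ0 : 0 ≤ ρ) (hρ1 : ρ < 1)
    (hg : ∀ r, a1 * (p r * ∑ t, K r t * g t) + a0 * ((1 - p r) * ∑ t, K r t * g t) ≤ ρ * g r)
    (n : ℕ) :
    ∑ b ∈ wordsLE n, a1 ^ (b.count true) * a0 ^ (b.count false) * W K p η b
      ≤ Mx / m / (1 - ρ) := by
  have h1 : ∀ j : ℕ, ∑ b ∈ words j, a1 ^ (b.count true) * a0 ^ (b.count false) * pr K p η g b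
      ≤ ρ ^ j * Mx := by
    intro j
    induction j with
    | zero =>
      have := pr_le hK hp hη hgM []
      rw [W_nil hη] at this
      simpa [words] using this
    | succ j ih =>
      rw [sum_words_succ]
      calc ∑ b ∈ words j, (a1 ^ ((true :: b).count true) * a0 ^ ((true :: b).count false)
              * pr K p η g (true :: b)
            + a1 ^ ((false :: b).count true) * a0 ^ ((false :: b).count false)
              * pr K p η g (false :: b))
          ≤ ∑ b ∈ words j, ρ * (a1 ^ (b.count true) * a0 ^ (b.count false) * pr K p η g b) := by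
            apply Finset.sum_le_sum
            intro b _
            have h2 := pr_super hK hp hη hg b
            have h3 := mul_le_mul_of_nonneg_left h2
              (by positivity : 0 ≤ a1 ^ (b.count true) * a0 ^ (b.count false))
            have c1 : (true :: b).count false = b.count false := by simp
            have c2 : (false :: b).count true = b.count true := by simp
            rw [c1, c2, List.count_cons_self, List.count_cons_self, pow_succ, pow_succ]
            calc _ = a1 ^ (b.count true) * a0 ^ (b.count false)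
                  * (a1 * pr K p η g (true :: b) + a0 * pr K p η g (false :: b)) := by ring
              _ ≤ _ := h3
              _ = _ := by ring
        _ = ρ * ∑ b ∈ words j, (a1 ^ (b.count true) * a0 ^ (b.count false) * pr K p η g b) := by
            rw [Finset.mul_sum]
        _ ≤ ρ * (ρ ^ j * Mx) := by gcongr
        _ = ρ ^ (j + 1) * Mx := by ring
  have hN : 0 < Mx := by
    have h2 := pr_le hK hp hη hgM []
    have h3 := pr_ge hK hp hη hgm []
    rw [W_nil hη] at h2 h3
    linarith
  have h2 : ∀ j : ℕ, ∑ b ∈ words j, a1 ^ (b.count true) * a0 ^ (b.count false) * W K p η b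
      ≤ ρ ^ j * (Mx / m) := by
    intro j
    have h3 : m * ∑ b ∈ words j, a1 ^ (b.count true) * a0 ^ (b.count false) * W K p η b
        ≤ ∑ b ∈ words j, a1 ^ (b.count true) * a0 ^ (b.count false) * pr K p η g b := by
      rw [Finset.mul_sum]
      apply Finset.sum_le_sum
      intro b _
      have := mul_le_mul_of_nonneg_left (pr_ge hK hp hη hgm b)
        (by positivity : 0 ≤ a1 ^ (b.count true) * a0 ^ (b.count false))
      linarith
    have h4 := h3.trans (h1 j)
    rw [← mul_div_assoc, le_div_iff₀ hm, mul_comm]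
    exact h4
  rw [sum_wordsLE]
  calc ∑ j ∈ Finset.range (n + 1), ∑ b ∈ words j,
        a1 ^ (b.count true) * a0 ^ (b.count false) * W K p η b
      ≤ ∑ j ∈ Finset.range (n + 1), ρ ^ j * (Mx / m) := Finset.sum_le_sum (fun j _ => h2 j)
    _ = (∑ j ∈ Finset.range (n + 1), ρ ^ j) * (Mx / m) := by rw [Finset.sum_mul]
    _ ≤ (1 - ρ)⁻¹ * (Mx / m) := by
        gcongr
        rw [geom_sum_eq hρ1.ne, ← neg_div_neg_eq, neg_sub, neg_sub, inv_eq_one_div]
        have : 0 < 1 - ρ := by linarith
        gcongr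
        have := pow_nonneg hρ0 (n + 1)
        linarith
    _ = Mx / m / (1 - ρ) := by rw [inv_mul_eq_div]

theorem core_bound (hN : 0 < N) (hK : IsStochastic K)
    (hμu : ∀ ν, IsStationary K ν → ν = μ) (hμ : IsStationary K μ)
    (hp : ∀ r, 0 < p r ∧ p r < 1) (hη : IsProbVec η) (hbar : 1 / 2 < ∑ r, μ r * p r) :
    ∃ lam : ℝ, 1 < lam ∧ ∃ C : ℝ, 0 ≤ C ∧ ∀ n : ℕ,
      ∑ b ∈ wordsLE n, lam ^ b.length * W K p η b
        * G (fun b => lam ^ b.length * W K p η b) n n (b.count true)
        * G (fun b => lam ^ b.length * W K p η (b.map not)) n n (b.count false) ≤ C := by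
  classical
  have : Nonempty (Fin N) := ⟨⟨0, hN⟩⟩
  -- ellipticity
  obtain ⟨r1, _, hr1⟩ := Finset.exists_min_image Finset.univ (fun r => min (p r) (1 - p r))
    Finset.univ_nonempty
  set δ : ℝ := min (p r1) (1 - p r1) with hδdef
  have hδ0 : 0 < δ := lt_min (hp r1).1 (by linarith [(hp r1).2])
  have hδ1 : δ < 1 := (min_le_left _ _).trans_lt (hp r1).2
  have hδ : ∀ r, δ ≤ p r ∧ p r ≤ 1 - δ := by
    intro r
    have h := hr1 r (Finset.mem_univ r)
    have h1 := h.trans (min_le_left _ _)
    have h2 := h.trans (min_le_right _ _)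
    exact ⟨h1, by linarith⟩
  have hp' : ∀ r, 0 ≤ p r ∧ p r ≤ 1 := fun r => ⟨(hp r).1.le, (hp r).2.le⟩
  set q : Fin N → ℝ := fun r => 1 - p r with hq
  have hq' : ∀ r, 0 ≤ q r ∧ q r ≤ 1 := fun r => by
    simp only [hq]; exact ⟨by linarith [(hp' r).2], by linarith [(hp' r).1]⟩
  have hδq : ∀ r, δ ≤ q r ∧ q r ≤ 1 - δ := fun r => by
    simp only [hq]; exact ⟨by linarith [(hδ r).2], by linarith [(hδ r).1]⟩
  -- drift
  set m : ℝ := ∑ r, μ r * p r with hm
  have hm1 : m ≤ 1 := by
    rw [hm, ← hμ.1.2]
    apply Finset.sum_le_sum; intro r _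
    calc μ r * p r ≤ μ r * 1 := mul_le_mul_of_nonneg_left (hp' r).2 (hμ.1.1 r)
      _ = μ r := mul_one _
  set ε : ℝ := (2 * m - 1) / 2 with hε
  have hε0 : 0 < ε := by rw [hε]; linarith
  have hε1 : ε < 1 := by rw [hε]; linarith
  have hf1 : 0 < ∑ r, μ r * (p r * 1 + (1 - p r) * (-(1 + ε))) := by
    have : ∑ r, μ r * (p r * 1 + (1 - p r) * (-(1 + ε))) = m - (1 + ε) * (1 - m) := by
      calc ∑ r, μ r * (p r * 1 + (1 - p r) * (-(1 + ε)))
          = ∑ r, ((2 + ε) * (μ r * p r) - (1 + ε) * μ r) := by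
            apply Finset.sum_congr rfl; intro r _; ring
        _ = (2 + ε) * m - (1 + ε) * 1 := by
            rw [Finset.sum_sub_distrib, ← Finset.mul_sum, ← Finset.mul_sum, hμ.1.2]
        _ = _ := by ring
    rw [this]; nlinarith
  have hf2 : 0 < ∑ r, μ r * (q r * (-1) + (1 - q r) * (1 - ε)) := by
    have : ∑ r, μ r * (q r * (-1) + (1 - q r) * (1 - ε)) = 2 * m - 1 - ε * m := by
      calc ∑ r, μ r * (q r * (-1) + (1 - q r) * (1 - ε))
          = ∑ r, ((2 - ε) * (μ r * p r) - 1 * μ r) := by
            apply Finset.sum_congr rfl; intro r _; simp only [hq]; ring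
        _ = (2 - ε) * m - 1 * 1 := by
            rw [Finset.sum_sub_distrib, ← Finset.mul_sum, ← Finset.mul_sum, hμ.1.2]
        _ = _ := by ring
    rw [this]; nlinarith
  obtain ⟨h1, d1, hd1, hh1⟩ := exists_corrector hK hμu _ hf1 hN
  obtain ⟨h2, d2, hd2, hh2⟩ := exists_corrector hK hμu _ hf2 hN
  obtain ⟨c0, hc0, hright⟩ := right_lemma hK hp' hη hδ0 hδ1 hδ h1 hd1 hε0 hh1
  -- choice of c
  have hlog : 0 < -Real.log (1 - δ) := by
    have := Real.log_neg (by linarith : 0 < 1 - δ) (by linarith)
    linarith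
  set c : ℝ := min c0 (-Real.log (1 - δ) / 2) with hc
  have hcpos : 0 < c := lt_min hc0 (by linarith)
  obtain ⟨hI1, ra, hra0, hra1, hra⟩ := hright c hcpos (min_le_left _ _)
  have hcδ : (1 - δ) * Real.exp c < 1 := by
    have h3 : Real.exp c < Real.exp (-Real.log (1 - δ)) := by
      apply Real.exp_lt_exp.2
      have := min_le_right c0 (-Real.log (1 - δ) / 2)
      linarith
    rw [Real.exp_neg, Real.exp_log (by linarith)] at h3
    calc (1 - δ) * Real.exp c < (1 - δ) * (1 - δ)⁻¹ :=
          mul_lt_mul_of_pos_left h3 (by linarith)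
      _ = 1 := mul_inv_cancel₀ (by linarith)
  obtain ⟨θ, hθ0, hθc, rb, hrb0, hrb1, hrb⟩ := left_lemma hK hq' hη hδ0 hδ1 hδq h2 hd2 hε0 hε1 hh2
    c hcpos
  -- choice of lam
  set B : ℝ := max (max ra rb) ((1 - δ) * Real.exp c) with hB
  have hB0 : 0 ≤ B := (hra0.trans (le_max_left _ _)).trans (le_max_left _ _)
  have hB1 : B < 1 := max_lt (max_lt hra1 hrb1) hcδ
  set lam : ℝ := Real.sqrt (2 / (1 + B)) with hlam
  have hlam2 : lam ^ 2 = 2 / (1 + B) := Real.sq_sqrt (by positivity)
  have hlam1 : 1 < lam := by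
    rw [hlam]
    apply Real.lt_sqrt_of_sq_lt
    rw [one_pow, one_lt_div (by linarith)]
    linarith
  have hlamB : lam ^ 2 * B < 1 := by
    rw [hlam2, div_mul_eq_mul_div, div_lt_one (by linarith)]
    linarith
  have hra' : lam ^ 2 * ra < 1 := by
    refine lt_of_le_of_lt ?_ hlamB
    gcongr
    exact (le_max_left _ _).trans (le_max_left _ _)
  have hrb' : lam ^ 2 * rb < 1 := by
    refine lt_of_le_of_lt ?_ hlamB
    gcongr
    exact (le_max_right _ _).trans (le_max_left _ _)
  have hzc : lam ^ 2 * (1 - δ) ≤ Real.exp (-c) := by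
    have h3 : lam ^ 2 * ((1 - δ) * Real.exp c) ≤ 1 := by
      refine le_trans ?_ hlamB.le
      gcongr
      exact le_max_right _ _
    rw [Real.exp_neg, ← one_div, le_div_iff₀ (Real.exp_pos _)]
    linarith
  have hzθ : lam ^ 2 * (1 - δ) ≤ Real.exp θ := by
    refine hzc.trans ?_
    apply Real.exp_le_exp.2; linarith
  set A1 : ℝ := 1 / (1 - lam ^ 2 * ra) with hA1
  set A2 : ℝ := 1 / (1 - lam ^ 2 * rb) with hA2
  have hA1p : 0 < A1 := by rw [hA1]; apply one_div_pos.2; linarith
  have hA2p : 0 < A2 := by rw [hA2]; apply one_div_pos.2; linarith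
  -- the contraction (I3)
  set H : ℝ := ∑ i, |h1 i| with hH
  set κ : ℝ := δ * Real.exp (-c * H) * Real.exp (-c * H)
    * (Real.exp (-c * (-(1 + ε))) - Real.exp θ) with hκ
  have hdiff : 0 < Real.exp (-c * (-(1 + ε))) - Real.exp θ := by
    rw [sub_pos]
    apply Real.exp_lt_exp.2
    nlinarith
  have hκ0 : 0 < κ := by rw [hκ]; positivity
  have hI3 : ∀ r, Real.exp (-c) * (p r * ∑ t, K r t * Real.exp (-c * h1 t))
      + Real.exp θ * ((1 - p r) * ∑ t, K r t * Real.exp (-c * h1 t))
      ≤ max (1 - κ) 0 * Real.exp (-c * h1 r) := by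
    intro r
    have hb := exp_bounds h1 hcpos.le r
    have hS : Real.exp (-c * H) ≤ ∑ t, K r t * Real.exp (-c * h1 t) := by
      calc Real.exp (-c * H) = ∑ t, K r t * Real.exp (-c * H) := by
            rw [← Finset.sum_mul, hK.2 r, one_mul]
        _ ≤ _ := by
            apply Finset.sum_le_sum; intro t _
            exact mul_le_mul_of_nonneg_left (exp_bounds h1 hcpos.le t).1 (hK.1 _ _)
    have h3 := hI1 r
    rw [mul_one] at h3
    have h4 : δ * Real.exp (-c * H) ≤ (1 - p r) * ∑ t, K r t * Real.exp (-c * h1 t) :=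
      mul_le_mul (hδq r).1 hS (Real.exp_pos _).le (hq' r).1
    have h5 : κ * Real.exp (-c * h1 r) ≤ (Real.exp (-c * (-(1 + ε))) - Real.exp θ)
        * ((1 - p r) * ∑ t, K r t * Real.exp (-c * h1 t)) := by
      have h6 : Real.exp (-c * H) * Real.exp (-c * h1 r) ≤ 1 := by
        calc Real.exp (-c * H) * Real.exp (-c * h1 r)
            ≤ Real.exp (-c * H) * Real.exp (c * H) :=
              mul_le_mul_of_nonneg_left hb.2 (Real.exp_pos _).le
          _ = 1 := by rw [← Real.exp_add]; simp
      calc κ * Real.exp (-c * h1 r)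
          = (Real.exp (-c * (-(1 + ε))) - Real.exp θ) * (δ * Real.exp (-c * H))
            * (Real.exp (-c * H) * Real.exp (-c * h1 r)) := by rw [hκ]; ring
        _ ≤ (Real.exp (-c * (-(1 + ε))) - Real.exp θ) * (δ * Real.exp (-c * H)) * 1 :=
            mul_le_mul_of_nonneg_left h6
              (mul_nonneg hdiff.le (mul_nonneg hδ0.le (Real.exp_pos _).le))
        _ = (Real.exp (-c * (-(1 + ε))) - Real.exp θ) * (δ * Real.exp (-c * H)) := mul_one _
        _ ≤ _ := mul_le_mul_of_nonneg_left h4 hdiff.le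
    calc Real.exp (-c) * (p r * ∑ t, K r t * Real.exp (-c * h1 t))
          + Real.exp θ * ((1 - p r) * ∑ t, K r t * Real.exp (-c * h1 t))
        ≤ (1 - κ) * Real.exp (-c * h1 r) := by nlinarith [h3, h5]
      _ ≤ _ := mul_le_mul_of_nonneg_right (le_max_left _ _) (Real.exp_pos _).le
  have hρ1 : max (1 - κ) 0 < 1 := max_lt (by linarith) one_pos
  have hgeom := geom_words hK hp' hη (g := fun r => Real.exp (-c * h1 r)) (Real.exp_pos (-c))
    (Real.exp_pos θ) (Real.exp_pos (-c * H)) (fun r => (exp_bounds h1 hcpos.le r).1)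
    (fun r => (exp_bounds h1 hcpos.le r).2) (le_max_right _ _) hρ1 hI3
  refine ⟨lam, hlam1, A1 * A2 * (Real.exp (c * H) / Real.exp (-c * H) / (1 - max (1 - κ) 0)),
    ?_, ?_⟩
  · have : 0 < 1 - max (1 - κ) 0 := by linarith
    positivity
  intro n
  have hG1 := G_le (V := W K p η) (W_nonneg hK hp' hη) (W_nil hη) hδ1.le (Real.exp_pos (-c))
    hlam1.le (W_replicate_le hK hp' hη hδ1.le hδ false) hra0 hzc hra' n (hra n) n
  have hG2 := G_le (V := W K q η) (W_nonneg hK hq' hη) (W_nil hη) hδ1.le (Real.exp_pos θ)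
    hlam1.le (W_replicate_le hK hq' hη hδ1.le hδq false) hrb0 hzθ hrb' n (hrb n) n
  have hflip : (fun b : List Bool => lam ^ b.length * W K p η (b.map not))
      = (fun b : List Bool => lam ^ b.length * W K q η b) := by
    funext b; rw [W_flip]
  rw [hflip]
  have hlam0 : 0 < lam := by linarith
  calc ∑ b ∈ wordsLE n, lam ^ b.length * W K p η b
        * G (fun b => lam ^ b.length * W K p η b) n n (b.count true)
        * G (fun b => lam ^ b.length * W K q η b) n n (b.count false)
      ≤ ∑ b ∈ wordsLE n, A1 * A2 * (Real.exp (-c) ^ (b.count true)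
          * Real.exp θ ^ (b.count false) * W K p η b) := by
        apply Finset.sum_le_sum
        intro b _
        have hW := W_nonneg hK hp' hη b
        have g1 := hG1 (b.count true)
        have g2 := hG2 (b.count false)
        have g1' := G_nonneg (fun b => lam ^ b.length * W K p η b)
          (fun b => mul_nonneg (by positivity) (W_nonneg hK hp' hη b)) n n (b.count true)
        have g2' := G_nonneg (fun b => lam ^ b.length * W K q η b)
          (fun b => mul_nonneg (by positivity) (W_nonneg hK hq' hη b)) n n (b.count false)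
        have hlen : b.length = b.count true + b.count false := by
          have := List.count_true_add_count_false b
          omega
        calc lam ^ b.length * W K p η b
              * G (fun b => lam ^ b.length * W K p η b) n n (b.count true)
              * G (fun b => lam ^ b.length * W K q η b) n n (b.count false)
            ≤ lam ^ b.length * W K p η b * (A1 * (Real.exp (-c) / lam) ^ (b.count true))
              * (A2 * (Real.exp θ / lam) ^ (b.count false)) := by
              gcongr
          _ = _ := by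
              rw [hlen, pow_add, div_pow, div_pow]; field_simp
    _ = A1 * A2 * ∑ b ∈ wordsLE n, Real.exp (-c) ^ (b.count true)
          * Real.exp θ ^ (b.count false) * W K p η b := by rw [Finset.mul_sum]
    _ ≤ _ := by
        gcongr
        exact hgeom n

end R109.ERW
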