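import Mathlib

/-!
# Excited random walks with Markovian cookie stacks: definitions

Cookies are the elements of `Fin N`; `K` is the transition matrix of the cookie stacks, `p r` is
the probability of a step to the right from a site whose current cookie is `r`, `η` is the law of
the first cookie of a stack.  Cookies and visits are counted from `0`.
-/

namespace R109.ERW

open MeasureTheory Filter

/-- `K` is a stochastic matrix. -/
def IsStochastic {N : ℕ} (K : Fin N → Fin N → ℝ) : Prop :=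
  (∀ r s, 0 ≤ K r s) ∧ ∀ r, ∑ s, K r s = 1

/-- `η` is a probability vector. -/
def IsProbVec {N : ℕ} (η : Fin N → ℝ) : Prop :=
  (∀ r, 0 ≤ η r) ∧ ∑ r, η r = 1

/-- `μ` is a stationary distribution of `K`. -/
def IsStationary {N : ℕ} (K : Fin N → Fin N → ℝ) (μ : Fin N → ℝ) : Prop :=
  IsProbVec μ ∧ ∀ s, ∑ r, μ r * K r s = μ s

/-- `C` is a closed irreducible class of the chain `K`: it is nonempty, cannot be left, and any two
of its states communicate. -/
def IsClosedIrreducibleClass {N : ℕ} (K : Fin N → Fin N → ℝ) (C : Set (Fin N)) : Prop :=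
  C.Nonempty ∧ (∀ r ∈ C, ∀ s, 0 < K r s → s ∈ C) ∧
    ∀ r ∈ C, ∀ s ∈ C, Relation.ReflTransGen (fun a b => 0 < K a b) r s

/-- For a path `x`: the number of visits to the site `x n` strictly before time `n`.  This is the
index (counted from `0`) of the cookie used at time `n`. -/
def visitsBefore (x : ℕ → ℤ) (n : ℕ) : ℕ := ((Finset.range n).filter (fun k => x k = x n)).card

/-- The stacks `R` and the process `X`, defined on a probability space `(Ω, P)`, form an excited
random walk with Markovian cookie stacks started at `0` (averaged law):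
* the stacks `(R x j)_j`, `x ∈ ℤ`, are independent Markov chains with initial law `η` and
  transition matrix `K`;
* `X` starts at `0` and moves by `±1`;
* given the stacks and `X 0, …, X n`, the walk steps to the right at time `n` with probability
  `p (R (X n) j)`, `j` the number of earlier visits to `X n`. -/
structure IsERW {N : ℕ} (K : Fin N → Fin N → ℝ) (p η : Fin N → ℝ) {Ω : Type*}
    [MeasurableSpace Ω] (P : Measure Ω) (R : ℤ → ℕ → Ω → Fin N) (X : ℕ → Ω → ℤ) : Prop where
  measurable_R : ∀ x j, Measurable (R x j)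
  measurable_X : ∀ n, Measurable (X n)
  env_law : ∀ (F : Finset ℤ) (L : ℕ) (ρ : ℤ → ℕ → Fin N),
    P.real {ω | ∀ y ∈ F, ∀ j ≤ L, R y j ω = ρ y j}
      = ∏ y ∈ F, (η (ρ y 0) * ∏ j ∈ Finset.range L, K (ρ y j) (ρ y (j + 1)))
  start : ∀ᵐ ω ∂P, X 0 ω = 0
  moves : ∀ n, ∀ᵐ ω ∂P, X (n + 1) ω = X n ω + 1 ∨ X (n + 1) ω = X n ω - 1
  quenched_law : ∀ (F : Finset ℤ) (L : ℕ) (ρ : ℤ → ℕ → Fin N) (n : ℕ) (x : ℕ → ℤ),
    x n ∈ F → visitsBefore x n ≤ L →
    P.real {ω | (∀ y ∈ F, ∀ j ≤ L, R y j ω = ρ y j) ∧ (∀ i ≤ n, X i ω = x i) ∧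
        X (n + 1) ω = x n + 1}
      = p (ρ (x n) (visitsBefore x n)) *
        P.real {ω | (∀ y ∈ F, ∀ j ≤ L, R y j ω = ρ y j) ∧ (∀ i ≤ n, X i ω = x i)}

/-- the first return time `inf {n ≥ 1 : X n = X 0}` (`⊤` if there is no return) -/
noncomputable def returnTime {Ω : Type*} (X : ℕ → Ω → ℤ) (ω : Ω) : ℕ∞ :=
  ⨅ (n : ℕ) (_ : 1 ≤ n ∧ X n ω = X 0 ω), (n : ℕ∞)

/-- strong transience: `|X n| → ∞` almost surely and `E[T | T < ∞] < ∞` for the first return time
`T`; the conditioning event has positive probability. -/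
structure IsStronglyTransient {Ω : Type*} [MeasurableSpace Ω] (P : Measure Ω)
    (X : ℕ → Ω → ℤ) : Prop where
  transient : ∀ᵐ ω ∂P, Tendsto (fun n => |X n ω|) atTop atTop
  return_pos : 0 < P {ω | returnTime X ω < ⊤}
  finite_mean : (∫⁻ ω in {ω | returnTime X ω < ⊤}, ((returnTime X ω : ℕ∞) : ENNReal) ∂P)
    / P {ω | returnTime X ω < ⊤} < ⊤

end R109.ERW
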