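import Pool.Agent.R109.ERW.Process
import Pool.Agent.R109.ERW.Core

/-!
Return probabilities decay exponentially; strong transience.
-/

namespace R109.ERW

open MeasureTheory Finset Filter

variable {N : ℕ} {K : Fin N → Fin N → ℝ} {p η : Fin N → ℝ}

lemma pos_map_not (s : List Bool) : pos (s.map not) = - pos s := by
  induction s with
  | nil => rfl
  | cons d s ih => cases d <;> simp [pos, stp, ih] <;> ring

lemma stk_map_not (s : List Bool) (x : ℤ) : stk (s.map not) x = (stk s (-x)).map not := by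
  induction s generalizing x with
  | nil => rfl
  | cons d s ih =>
    rw [List.map_cons]
    by_cases h : x = pos (s.map not)
    · subst h
      rw [stk_cons_self, ih]
      have e : -pos (s.map not) = pos s := by rw [pos_map_not, neg_neg]
      rw [e, stk_cons_self, List.map_cons]
    · rw [stk_cons_of_ne _ _ h, ih, stk_cons_of_ne]
      intro h2
      apply h
      rw [pos_map_not, ← h2, neg_neg]

lemma map_not_map_not (b : List Bool) : (b.map not).map not = b := by
  have hc : (not ∘ not) = id := by funext x; simp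
  rw [List.map_map, hc, List.map_id]

/-- the sum over the loops of length `n` -/
noncomputable def loopSum (K : Fin N → Fin N → ℝ) (p η : Fin N → ℝ) (n : ℕ) : ℝ :=
  ∑ s ∈ (words n).filter (fun s => pos s = 0), ∏ x ∈ Finset.Icc (-(n:ℤ)) n, W K p η (stk s x)

lemma loopSum_flip (n : ℕ) : loopSum K (fun r => 1 - p r) η n = loopSum K p η n := by
  unfold loopSum
  apply Finset.sum_nbij' (fun s => s.map not) (fun s => s.map not)
  · intro s hs
    simp only [Finset.mem_filter, mem_words, List.length_map, pos_map_not] at hs ⊢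
    exact ⟨hs.1, by omega⟩
  · intro s hs
    simp only [Finset.mem_filter, mem_words, List.length_map, pos_map_not] at hs ⊢
    exact ⟨hs.1, by omega⟩
  · intro s _; exact map_not_map_not s
  · intro s _; exact map_not_map_not s
  · intro s _
    apply Finset.prod_nbij' (fun x => -x) (fun x => -x)
    · intro x hx; rw [Finset.mem_Icc] at hx ⊢; constructor <;> linarith [hx.1, hx.2]
    · intro x hx; rw [Finset.mem_Icc] at hx ⊢; constructor <;> linarith [hx.1, hx.2]
    · intro x _; exact neg_neg x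
    · intro x _; exact neg_neg x
    · intro x _
      rw [stk_map_not, neg_neg, W_flip]

theorem loopSum_decay_pos {μ : Fin N → ℝ} (hN : 0 < N) (hK : IsStochastic K)
    (hμu : ∀ ν, IsStationary K ν → ν = μ) (hμ : IsStationary K μ)
    (hp : ∀ r, 0 < p r ∧ p r < 1) (hη : IsProbVec η) (hbar : 1 / 2 < ∑ r, μ r * p r) :
    ∃ lam : ℝ, 1 < lam ∧ ∃ C : ℝ, 0 ≤ C ∧ ∀ n : ℕ, lam ^ n * loopSum K p η n ≤ C := by
  obtain ⟨lam, hlam, C, hC, hb⟩ := core_bound hN hK hμu hμ hp hη hbar
  refine ⟨lam, hlam, C, hC, ?_⟩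
  intro n
  have hp' : ∀ r, 0 ≤ p r ∧ p r ≤ 1 := fun r => ⟨(hp r).1.le, (hp r).2.le⟩
  have h1 := loops_le (fun b => lam ^ b.length * W K p η b)
    (fun b => mul_nonneg (by positivity) (W_nonneg hK hp' hη b)) n
  have h2 : lam ^ n * loopSum K p η n = ∑ s ∈ (words n).filter (fun s => pos s = 0),
      ∏ x ∈ Finset.Icc (-(n:ℤ)) n, (lam ^ (stk s x).length * W K p η (stk s x)) := by
    rw [loopSum, Finset.mul_sum]
    apply Finset.sum_congr rfl
    intro s hs
    rw [Finset.mem_filter, mem_words] at hs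
    rw [Finset.prod_mul_distrib, Finset.prod_pow_eq_pow_sum,
      sum_length_stk n s hs.1.le, hs.1]
  rw [h2]
  refine h1.trans ?_
  have h3 := hb n
  simp only [List.length_map] at h3 ⊢
  exact h3

theorem loopSum_decay {μ : Fin N → ℝ} (hN : 0 < N) (hK : IsStochastic K)
    (hμu : ∀ ν, IsStationary K ν → ν = μ) (hμ : IsStationary K μ)
    (hp : ∀ r, 0 < p r ∧ p r < 1) (hη : IsProbVec η) (hbar : ∑ r, μ r * p r ≠ 1 / 2) :
    ∃ lam : ℝ, 1 < lam ∧ ∃ C : ℝ, 0 ≤ C ∧ ∀ n : ℕ, lam ^ n * loopSum K p η n ≤ C := by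
  rcases lt_or_gt_of_ne hbar with h | h
  · have h' : 1 / 2 < ∑ r, μ r * (1 - p r) := by
      have : ∑ r, μ r * (1 - p r) = 1 - ∑ r, μ r * p r := by
        simp only [mul_sub, mul_one, Finset.sum_sub_distrib, hμ.1.2]
      rw [this]; linarith
    obtain ⟨lam, hlam, C, hC, hb⟩ := loopSum_decay_pos (p := fun r => 1 - p r) hN hK hμu hμ
      (fun r => ⟨by linarith [(hp r).2], by linarith [(hp r).1]⟩) hη h'
    refine ⟨lam, hlam, C, hC, ?_⟩
    intro n
    rw [← loopSum_flip]
    exact hb n
  · exact loopSum_decay_pos hN hK hμu hμ hp hη h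

variable {Ω : Type*} [MeasurableSpace Ω] {P : Measure Ω} [IsProbabilityMeasure P]
  {R : ℤ → ℕ → Ω → Fin N} {X : ℕ → Ω → ℤ}

/-- the event that `X` follows the steps `s` -/
def Ev (X : ℕ → Ω → ℤ) (s : List Bool) : Set Ω := {ω | ∀ i ≤ s.length, X i ω = pth s i}

lemma pth_inj : ∀ (s t : List Bool), s.length = t.length →
    (∀ i ≤ s.length, pth s i = pth t i) → s = t := by
  intro s
  induction s with
  | nil =>
    intro t ht _
    exact (List.length_eq_zero_iff.1 ht.symm).symm
  | cons d s ih =>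
    intro t ht h
    cases t with
    | nil => simp at ht
    | cons e t =>
      simp only [List.length_cons, Nat.add_right_cancel_iff] at ht
      have hst : s = t := by
        apply ih t ht
        intro i hi
        have := h i (by simp only [List.length_cons]; omega)
        rwa [pth_cons d s hi, pth_cons e t (by omega)] at this
      subst hst
      have h2 := h (s.length + 1) (by simp)
      rw [pth_cons_length, pth_cons_length] at h2
      have h3 : stp d = stp e := by linarith
      have h4 : d = e := by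
        cases d <;> cases e <;> simp [stp] at h3 ⊢
      rw [h4]

lemma Ev_disjoint {s t : List Bool} (hl : s.length = t.length) (hne : s ≠ t) :
    Disjoint (Ev X s) (Ev X t) := by
  rw [Set.disjoint_left]
  intro ω h1 h2
  apply hne
  apply pth_inj s t hl
  intro i hi
  rw [← h1 i hi, h2 i (by omega)]

lemma exists_word (n : ℕ) (ω : Ω) (h0 : X 0 ω = 0)
    (hm : ∀ i, X (i + 1) ω = X i ω + 1 ∨ X (i + 1) ω = X i ω - 1) :
    ∃ s ∈ words n, ω ∈ Ev X s := by
  induction n with
  | zero =>
    refine ⟨[], by simp [words], ?_⟩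
    intro i hi
    simp only [List.length_nil, Nat.le_zero] at hi
    subst hi
    rw [h0]; rfl
  | succ n ih =>
    obtain ⟨s, hs, hω⟩ := ih
    rw [mem_words] at hs
    have hn : X n ω = pos s := by
      have := hω n (by omega)
      rw [this, ← hs, pth_length]
    obtain ⟨d, hd⟩ : ∃ d, X (n + 1) ω = pos s + stp d := by
      rcases hm n with h | h
      · exact ⟨true, by rw [h, hn]; simp [stp]⟩
      · exact ⟨false, by rw [h, hn]; simp [stp]; ring⟩
    refine ⟨d :: s, mem_words.2 (by simp [hs]), ?_⟩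
    intro i hi
    simp only [List.length_cons] at hi
    rcases Nat.lt_or_ge s.length i with hlt | hge
    · have : i = s.length + 1 := by omega
      subst this
      rw [pth_cons_length, hs, hd]
    · rw [pth_cons d s hge]
      exact hω i hge

lemma prob_eq_sum (h : IsERW K p η P R X) (n : ℕ) (y : ℤ) :
    P.real {ω | X n ω = y} = ∑ s ∈ (words n).filter (fun s => pos s = y), P.real (Ev X s) := by
  rw [← measureReal_biUnion_finset]
  · apply measureReal_congr
    have hmoves : ∀ᵐ ω ∂P, ∀ i, X (i + 1) ω = X i ω + 1 ∨ X (i + 1) ω = X i ω - 1 :=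
      ae_all_iff.2 h.moves
    filter_upwards [h.start, hmoves] with ω h0 hm
    apply propext
    constructor
    · intro hy
      obtain ⟨s, hs, hω⟩ := exists_word n ω h0 hm
      change ω ∈ ⋃ s ∈ (words n).filter (fun s => pos s = y), Ev X s
      rw [Set.mem_iUnion₂]
      refine ⟨s, ?_, hω⟩
      rw [Finset.mem_filter]
      refine ⟨hs, ?_⟩
      rw [mem_words] at hs
      have := hω n (by omega)
      rw [← pth_length s, hs, ← this]
      exact hy
    · intro hω
      change ω ∈ ⋃ s ∈ (words n).filter (fun s => pos s = y), Ev X s at hω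
      rw [Set.mem_iUnion₂] at hω
      obtain ⟨s, hs, hω⟩ := hω
      rw [Finset.mem_filter, mem_words] at hs
      have := hω n (by omega)
      change X n ω = y
      rw [this, ← hs.1, pth_length, hs.2]
  · intro s hs t ht hst
    simp only [Finset.coe_filter, Set.mem_ofPred_eq, mem_words] at hs ht
    exact Ev_disjoint (by omega) hst
  · intro s _
    exact meas_path h _ _

lemma prob_zero_eq (hN : 0 < N) (hK : IsStochastic K) (h : IsERW K p η P R X) (n : ℕ) :
    P.real {ω | X n ω = 0} = loopSum K p η n := by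
  rw [prob_eq_sum h, loopSum]
  apply Finset.sum_congr rfl
  intro s hs
  rw [Finset.mem_filter, mem_words] at hs
  exact path_law hN hK h n _ (Finset.Subset.refl _) s hs.1.le

lemma elliptic_step (hN : 0 < N) (hK : IsStochastic K) (hη : IsProbVec η)
    (hp : ∀ r, 0 ≤ p r ∧ p r ≤ 1) {δ : ℝ} (hδ : ∀ r, δ ≤ p r ∧ p r ≤ 1 - δ)
    (h : IsERW K p η P R X) (n : ℕ) (y : ℤ) (d : Bool) :
    δ * P.real {ω | X n ω = y} ≤ P.real {ω | X (n + 1) ω = y + stp d} := by
  classical
  rw [prob_eq_sum h, prob_eq_sum h, Finset.mul_sum]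
  have h1 : ∑ s ∈ (words n).filter (fun s => pos s = y), δ * P.real (Ev X s)
      ≤ ∑ s ∈ (words n).filter (fun s => pos s = y), P.real (Ev X (d :: s)) := by
    apply Finset.sum_le_sum
    intro s hs
    rw [Finset.mem_filter, mem_words] at hs
    have e1 := path_law hN hK h (n + 1) _ (Finset.Subset.refl _) s (by omega)
    have e2 := path_law hN hK h (n + 1) _ (Finset.Subset.refl _) (d :: s)
      (by simp only [List.length_cons]; omega)
    change δ * P.real {ω | ∀ i ≤ s.length, X i ω = pth s i}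
      ≤ P.real {ω | ∀ i ≤ (d :: s).length, X i ω = pth (d :: s) i}
    rw [e1, e2]
    have hmem : pos s ∈ Finset.Icc (-((n + 1 : ℕ):ℤ)) ((n + 1 : ℕ):ℤ) := by
      have := abs_le.1 (abs_pos_le s)
      rw [hs.1] at this
      rw [Finset.mem_Icc]; push_cast; constructor <;> linarith
    rw [← Finset.mul_prod_erase _ _ hmem, ← Finset.mul_prod_erase _ _ hmem]
    have e3 : ∏ x ∈ (Finset.Icc (-((n + 1 : ℕ):ℤ)) ((n + 1 : ℕ):ℤ)).erase (pos s),
        W K p η (stk (d :: s) x)
        = ∏ x ∈ (Finset.Icc (-((n + 1 : ℕ):ℤ)) ((n + 1 : ℕ):ℤ)).erase (pos s),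
        W K p η (stk s x) := by
      apply Finset.prod_congr rfl
      intro x hx
      rw [stk_cons_of_ne _ _ (Finset.ne_of_mem_erase hx)]
    rw [e3, stk_cons_self, ← mul_assoc]
    apply mul_le_mul_of_nonneg_right (W_cons_ge hK hp hη hδ d _)
    exact Finset.prod_nonneg (fun x _ => W_nonneg hK hp hη _)
  refine h1.trans ?_
  have hinj : Set.InjOn (List.cons d)
      ((words n).filter (fun s => pos s = y) : Finset (List Bool)) := by
    intro a _ b _ hab; simpa using hab
  rw [← Finset.sum_image (f := fun s => P.real (Ev X s)) hinj]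
  apply Finset.sum_le_sum_of_subset_of_nonneg
  · intro t ht
    rw [Finset.mem_image] at ht
    obtain ⟨s, hs, rfl⟩ := ht
    rw [Finset.mem_filter, mem_words] at hs ⊢
    exact ⟨by simp [hs.1], by rw [pos, hs.2]⟩
  · intro t _ _; exact measureReal_nonneg

lemma elliptic_return (hN : 0 < N) (hK : IsStochastic K) (hη : IsProbVec η)
    (hp : ∀ r, 0 ≤ p r ∧ p r ≤ 1) {δ : ℝ} (hδ0 : 0 ≤ δ) (hδ : ∀ r, δ ≤ p r ∧ p r ≤ 1 - δ)
    (h : IsERW K p η P R X) (k : ℕ) : ∀ (n : ℕ) (y : ℤ), y.natAbs = k →
    δ ^ k * P.real {ω | X n ω = y} ≤ P.real {ω | X (n + k) ω = 0} := by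
  induction k with
  | zero =>
    intro n y hy
    have : y = 0 := Int.natAbs_eq_zero.1 hy
    subst this
    simp
  | succ k ih =>
    intro n y hy
    obtain ⟨d, hd⟩ : ∃ d, (y + stp d).natAbs = k := by
      rcases lt_or_ge 0 y with hlt | hge
      · exact ⟨false, by simp only [stp, Bool.false_eq_true, if_false]; omega⟩
      · exact ⟨true, by simp only [stp, if_true]; omega⟩
    have h1 := elliptic_step hN hK hη hp hδ h n y d
    have h2 := ih (n + 1) (y + stp d) hd
    have e : n + 1 + k = n + (k + 1) := by ring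
    rw [e] at h2
    calc δ ^ (k + 1) * P.real {ω | X n ω = y}
        = δ ^ k * (δ * P.real {ω | X n ω = y}) := by ring
      _ ≤ δ ^ k * P.real {ω | X (n + 1) ω = y + stp d} := by gcongr
      _ ≤ _ := h2

lemma summable_of_decay {lam C : ℝ} (hlam : 1 < lam) {a : ℕ → ℝ} (ha0 : ∀ n, 0 ≤ a n)
    (ha : ∀ n, lam ^ n * a n ≤ C) : Summable (fun n : ℕ => (n : ℝ) * a n) ∧ Summable a := by
  have hlam0 : 0 < lam := by linarith
  have hb : ∀ n, a n ≤ C * (lam⁻¹) ^ n := by
    intro n
    rw [inv_pow, ← div_eq_mul_inv, le_div_iff₀ (by positivity), mul_comm]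
    exact ha n
  have hr : ‖lam⁻¹‖ < 1 := by
    rw [Real.norm_eq_abs, abs_of_pos (by positivity)]
    exact inv_lt_one_of_one_lt₀ hlam
  have s1 := summable_pow_mul_geometric_of_norm_lt_one 1 hr
  have s0 := summable_geometric_of_norm_lt_one hr
  constructor
  · apply Summable.of_nonneg_of_le (fun n => mul_nonneg (Nat.cast_nonneg n) (ha0 n))
      (fun n => mul_le_mul_of_nonneg_left (hb n) (Nat.cast_nonneg n))
    have := s1.mul_left C
    refine this.congr (fun n => ?_)
    simp only [pow_one]; ring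
  · exact Summable.of_nonneg_of_le ha0 hb (s0.mul_left C)

/-- exponential decay of the return probabilities -/
theorem decay {μ : Fin N → ℝ} (hK : IsStochastic K)
    (hcl : ∃! C : Set (Fin N), IsClosedIrreducibleClass K C) (hμ : IsStationary K μ)
    (hp : ∀ r, 0 < p r ∧ p r < 1) (hη : IsProbVec η) (hbar : ∑ r, μ r * p r ≠ 1 / 2)
    (h : IsERW K p η P R X) :
    ∃ lam : ℝ, 1 < lam ∧ ∃ C : ℝ, ∀ n, lam ^ n * P.real {ω | X n ω = 0} ≤ C := by
  have hN : 0 < N := by
    rcases Nat.eq_zero_or_pos N with h0 | h0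
    · subst h0
      have := hη.2
      simp at this
    · exact h0
  have hμu : ∀ ν, IsStationary K ν → ν = μ := fun ν hν => stationary_unique hK hcl hμ hν
  obtain ⟨lam, hlam, C, _, hdec⟩ := loopSum_decay hN hK hμu hμ hp hη hbar
  exact ⟨lam, hlam, C, fun n => by rw [prob_zero_eq hN hK h]; exact hdec n⟩

theorem main {μ : Fin N → ℝ} (hK : IsStochastic K)
    (hcl : ∃! C : Set (Fin N), IsClosedIrreducibleClass K C) (hμ : IsStationary K μ)
    (hp : ∀ r, 0 < p r ∧ p r < 1) (hη : IsProbVec η) (hbar : ∑ r, μ r * p r ≠ 1 / 2)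
    (h : IsERW K p η P R X) : IsStronglyTransient P X := by
  classical
  have hN : 0 < N := by
    rcases Nat.eq_zero_or_pos N with h0 | h0
    · subst h0
      have := hη.2
      simp at this
    · exact h0
  have hμu : ∀ ν, IsStationary K ν → ν = μ := fun ν hν => stationary_unique hK hcl hμ hν
  obtain ⟨lam, hlam, C, hC, hdec⟩ := loopSum_decay hN hK hμu hμ hp hη hbar
  have hp' : ∀ r, 0 ≤ p r ∧ p r ≤ 1 := fun r => ⟨(hp r).1.le, (hp r).2.le⟩
  have hne : Nonempty (Fin N) := ⟨⟨0, hN⟩⟩
  obtain ⟨r1, _, hr1⟩ := Finset.exists_min_image Finset.univ (fun r => min (p r) (1 - p r))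
    Finset.univ_nonempty
  set δ : ℝ := min (p r1) (1 - p r1) with hδdef
  have hδ0 : 0 < δ := lt_min (hp r1).1 (by linarith [(hp r1).2])
  have hδ : ∀ r, δ ≤ p r ∧ p r ≤ 1 - δ := by
    intro r
    have h := hr1 r (Finset.mem_univ r)
    have h1 := h.trans (min_le_left _ _)
    have h2 := h.trans (min_le_right _ _)
    exact ⟨h1, by linarith⟩
  have hdec' : ∀ n, lam ^ n * P.real {ω | X n ω = 0} ≤ C := by
    intro n; rw [prob_zero_eq hN hK h]; exact hdec n
  obtain ⟨hs1, hs0⟩ := summable_of_decay hlam (a := fun n => P.real {ω | X n ω = 0})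
    (fun n => measureReal_nonneg) hdec'
  have hmeas : ∀ n (y : ℤ), MeasurableSet {ω | X n ω = y} := fun n y =>
    h.measurable_X n (measurableSet_singleton y)
  -- every site is visited finitely often
  have hfin : ∀ y : ℤ, ∀ᵐ ω ∂P, ∀ᶠ n in atTop, ω ∉ {ω | X n ω = y} := by
    intro y
    apply ae_eventually_notMem
    have hsy : Summable (fun n => P.real {ω | X n ω = y}) := by
      have h1 : Summable (fun n => P.real {ω | X (n + y.natAbs) ω = 0}) :=
        (summable_nat_add_iff y.natAbs).2 hs0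
      have h2 := h1.mul_left ((δ ^ y.natAbs)⁻¹)
      apply Summable.of_nonneg_of_le (fun n => measureReal_nonneg) _ h2
      intro n
      have h3 := elliptic_return hN hK hη hp' hδ0.le hδ h y.natAbs n y rfl
      rw [inv_mul_eq_div, le_div_iff₀ (by positivity), mul_comm]
      exact h3
    have h4 : ∀ n, P {ω | X n ω = y} = ENNReal.ofReal (P.real {ω | X n ω = y}) := by
      intro n; rw [ofReal_measureReal]
    simp_rw [h4]
    rw [← ENNReal.ofReal_tsum_of_nonneg (fun n => measureReal_nonneg) hsy]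
    exact ENNReal.ofReal_ne_top
  have htrans : ∀ᵐ ω ∂P, Tendsto (fun n => |X n ω|) atTop atTop := by
    filter_upwards [ae_all_iff.2 hfin] with ω hω
    rw [tendsto_atTop]
    intro b
    have h5 : ∀ᶠ n in atTop, ∀ y ∈ Finset.Icc (-b) b, X n ω ≠ y := by
      rw [eventually_all_finset]
      intro y _
      exact hω y
    filter_upwards [h5] with n hn
    by_contra hcon
    push Not at hcon
    have := abs_lt.1 hcon
    exact hn (X n ω) (Finset.mem_Icc.2 ⟨this.1.le, this.2.le⟩) rfl
  have hretm : {ω | returnTime X ω < ⊤} = ⋃ n : ℕ, {ω | 1 ≤ n ∧ X n ω = X 0 ω} := by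
    ext ω
    simp only [Set.mem_ofPred_eq, Set.mem_iUnion, returnTime]
    constructor
    · intro hlt
      by_contra hcon
      push Not at hcon
      have : (⨅ (n : ℕ) (_ : 1 ≤ n ∧ X n ω = X 0 ω), (n : ℕ∞)) = ⊤ := by
        simp only [iInf_eq_top]
        rintro n ⟨h1, h2⟩
        exact absurd h2 (hcon n h1)
      rw [this] at hlt
      exact lt_irrefl _ hlt
    · rintro ⟨n, hn⟩
      exact lt_of_le_of_lt (iInf₂_le n hn) (ENat.natCast_lt_top n)
  have hmeasn : ∀ n : ℕ, MeasurableSet {ω | 1 ≤ n ∧ X n ω = X 0 ω} := by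
    intro n
    by_cases hn : 1 ≤ n
    · have : {ω | 1 ≤ n ∧ X n ω = X 0 ω} = {ω | X n ω = X 0 ω} := by ext ω; simp [hn]
      rw [this]
      exact measurableSet_eq_fun (h.measurable_X n) (h.measurable_X 0)
    · have : {ω | 1 ≤ n ∧ X n ω = X 0 ω} = ∅ := by ext ω; simp [hn]
      rw [this]; exact MeasurableSet.empty
  have hpos : 0 < P {ω | returnTime X ω < ⊤} := by
    have h0 : P.real {ω | X 0 ω = 0} = 1 := by
      have : P {ω | X 0 ω = 0} = 1 := by
        rw [prob_compl_eq_zero_iff (hmeas 0 0) |>.symm]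
        exact h.start
      rw [measureReal_def, this]; simp
    have h1 := elliptic_step hN hK hη hp' hδ h 0 0 true
    have h2 := elliptic_step hN hK hη hp' hδ h 1 1 false
    rw [h0] at h1
    simp only [stp, if_true, Bool.false_eq_true, if_false, zero_add, Nat.reduceAdd,
      Int.reduceNeg, Int.reduceAdd, mul_one] at h1 h2
    have h3 : 0 < P.real {ω | X 2 ω = 0} := by
      have : 0 < δ * P.real {ω | X 1 ω = 1} := by
        apply mul_pos hδ0
        linarith
      have e : (1:ℤ) + -1 = 0 := by norm_num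
      linarith
    have h4 : 0 < P {ω | X 2 ω = 0} := by
      rw [measureReal_def] at h3
      exact (ENNReal.toReal_pos_iff.1 h3).1
    refine h4.trans_le ?_
    apply measure_mono_ae
    filter_upwards [h.start] with ω hω h2ω
    change returnTime X ω < ⊤
    have : ω ∈ {ω | returnTime X ω < ⊤} := by
      rw [hretm, Set.mem_iUnion]
      refine ⟨2, ?_⟩
      change 1 ≤ 2 ∧ X 2 ω = X 0 ω
      refine ⟨by norm_num, ?_⟩
      rw [hω]; exact h2ω
    exact this
  refine ⟨htrans, hpos, ?_⟩
  apply ENNReal.div_lt_top _ hpos.ne'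
  -- finite mean
  have hle : ∫⁻ ω in {ω | returnTime X ω < ⊤}, ((returnTime X ω : ℕ∞) : ENNReal) ∂P
      ≤ ∫⁻ ω, ∑' n : ℕ, Set.indicator {ω | 1 ≤ n ∧ X n ω = X 0 ω}
        (fun _ => (n : ENNReal)) ω ∂P := by
    refine (setLIntegral_mono_ae' ?_ ?_).trans (setLIntegral_le_lintegral _ _)
    · rw [hretm]; exact MeasurableSet.iUnion hmeasn
    · refine Filter.Eventually.of_forall (fun ω hω => ?_)
      rw [hretm, Set.mem_iUnion] at hω
      obtain ⟨n, hn⟩ := hω
      have hn' : 1 ≤ n ∧ X n ω = X 0 ω := hn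
      have h1 : returnTime X ω ≤ (n : ℕ∞) := iInf₂_le n hn'
      calc ((returnTime X ω : ℕ∞) : ENNReal) ≤ ((n : ℕ∞) : ENNReal) := by
            exact_mod_cast h1
        _ = (n : ENNReal) := by simp
        _ = Set.indicator {ω | 1 ≤ n ∧ X n ω = X 0 ω} (fun _ => (n : ENNReal)) ω := by
            rw [Set.indicator_of_mem hn]
        _ ≤ _ := ENNReal.le_tsum n
  refine ne_top_of_le_ne_top ?_ hle
  rw [lintegral_tsum (fun n => (measurable_const.indicator (hmeasn n)).aemeasurable)]
  have hterm : ∀ n : ℕ, ∫⁻ ω, Set.indicator {ω | 1 ≤ n ∧ X n ω = X 0 ω}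
      (fun _ => (n : ENNReal)) ω ∂P ≤ ENNReal.ofReal (n * P.real {ω | X n ω = 0}) := by
    intro n
    rw [lintegral_indicator_const (hmeasn n)]
    rw [ENNReal.ofReal_mul (Nat.cast_nonneg n), ENNReal.ofReal_natCast, ofReal_measureReal]
    refine mul_le_mul' le_rfl ?_
    apply measure_mono_ae
    filter_upwards [h.start] with ω hω h2ω
    have : X n ω = X 0 ω := h2ω.2
    change X n ω = 0
    rw [this, hω]
  have hsum : ∑' n : ℕ, ENNReal.ofReal (n * P.real {ω | X n ω = 0}) ≠ ⊤ := by
    rw [← ENNReal.ofReal_tsum_of_nonneg (fun n => mul_nonneg (Nat.cast_nonneg n)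
      measureReal_nonneg) hs1]
    exact ENNReal.ofReal_ne_top
  exact ne_top_of_le_ne_top hsum (ENNReal.tsum_le_tsum hterm)

end R109.ERW
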