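import Pool.Agent.R109.ERW.Bounds

/-!
Nearest neighbour paths, their stacks of departures, and the sum over loops.
-/

namespace R109.ERW

open Finset

/-- step to the right for `true`, to the left for `false` -/
def stp (d : Bool) : ℤ := if d then 1 else -1

/-- position after the steps `s` (newest step first), starting at `0` -/
def pos : List Bool → ℤ
  | [] => 0
  | (d :: s) => pos s + stp d

/-- the directions of the departures from the sites (newest first) -/
def stk : List Bool → ℤ → List Bool
  | [] => fun _ => []
  | (d :: s) => Function.update (stk s) (pos s) (d :: stk s (pos s))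

lemma stk_cons_self (d : Bool) (s : List Bool) : stk (d :: s) (pos s) = d :: stk s (pos s) := by
  simp [stk]

lemma stk_cons_of_ne (d : Bool) (s : List Bool) {x : ℤ} (h : x ≠ pos s) :
    stk (d :: s) x = stk s x := by
  simp [stk, Function.update_of_ne h]

lemma abs_stp (d : Bool) : |stp d| = 1 := by cases d <;> simp [stp]

lemma abs_pos_le (s : List Bool) : |pos s| ≤ s.length := by
  induction s with
  | nil => simp [pos]
  | cons d s ih =>
    simp only [pos, List.length_cons, Nat.cast_add, Nat.cast_one]
    calc |pos s + stp d| ≤ |pos s| + |stp d| := abs_add_le _ _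
      _ ≤ _ := by rw [abs_stp]; linarith

lemma stk_eq_nil (s : List Bool) {x : ℤ} (hx : (s.length : ℤ) ≤ |x|) : stk s x = [] := by
  induction s with
  | nil => rfl
  | cons d s ih =>
    simp only [List.length_cons, Nat.cast_add, Nat.cast_one] at hx
    have hne : x ≠ pos s := by
      rintro rfl
      have := abs_pos_le s
      linarith
    rw [stk_cons_of_ne _ _ hne]
    exact ih (by linarith)

lemma length_stk_le (s : List Bool) (x : ℤ) : (stk s x).length ≤ s.length := by
  induction s with
  | nil => simp [stk]
  | cons d s ih =>
    by_cases h : x = pos s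
    · subst h
      rw [stk_cons_self]; simpa using ih
    · rw [stk_cons_of_ne _ _ h]
      simp only [List.length_cons]; omega

lemma sum_length_stk (n : ℕ) (s : List Bool) (hs : s.length ≤ n) :
    ∑ x ∈ Finset.Icc (-(n:ℤ)) n, (stk s x).length = s.length := by
  induction s with
  | nil => simp [stk]
  | cons d s ih =>
    simp only [List.length_cons] at hs ⊢
    have ih' := ih (by omega)
    have hmem : pos s ∈ Finset.Icc (-(n:ℤ)) n := by
      have := abs_le.1 (abs_pos_le s)
      rw [Finset.mem_Icc]
      have h2 : (s.length : ℤ) ≤ n := by exact_mod_cast (by omega : s.length ≤ n)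
      constructor <;> linarith
    rw [← Finset.add_sum_erase _ _ hmem] at ih' ⊢
    rw [stk_cons_self]
    have : ∑ x ∈ (Finset.Icc (-(n:ℤ)) n).erase (pos s), (stk (d :: s) x).length
        = ∑ x ∈ (Finset.Icc (-(n:ℤ)) n).erase (pos s), (stk s x).length := by
      apply Finset.sum_congr rfl
      intro x hx
      rw [stk_cons_of_ne _ _ (Finset.ne_of_mem_erase hx)]
    rw [this, List.length_cons]
    omega

lemma balance (s : List Bool) (x : ℤ) :
    ((stk s x).count true : ℤ) - ((stk s (x + 1)).count false : ℤ)
      = (if x < pos s then 1 else 0) - (if x < 0 then 1 else 0) := by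
  induction s with
  | nil =>
    by_cases h : x < 0 <;> simp [stk, pos, h]
  | cons d s ih =>
    cases d
    · -- left step
      simp only [pos, stp, Bool.false_eq_true, if_false]
      by_cases h1 : x = pos s
      · subst h1
        rw [stk_cons_self, stk_cons_of_ne _ _ (by omega)]
        have c : (false :: stk s (pos s)).count true = (stk s (pos s)).count true := by simp
        rw [c, ih]
        split_ifs <;> omega
      · rw [stk_cons_of_ne _ _ h1]
        by_cases h2 : x + 1 = pos s
        · rw [h2, stk_cons_self, List.count_cons_self]
          rw [h2] at ih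
          push_cast
          split_ifs at ih ⊢ <;> omega
        · rw [stk_cons_of_ne _ _ h2, ih]
          split_ifs <;> omega
    · simp only [pos, stp, if_true]
      by_cases h1 : x = pos s
      · subst h1
        rw [stk_cons_self, stk_cons_of_ne _ _ (by omega), List.count_cons_self]
        push_cast
        split_ifs at ih ⊢ <;> omega
      · rw [stk_cons_of_ne _ _ h1]
        by_cases h2 : x + 1 = pos s
        · rw [h2, stk_cons_self]
          have c : (true :: stk s (pos s)).count false = (stk s (pos s)).count false := by simp
          rw [h2] at ih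
          rw [c, ih]
          split_ifs <;> omega
        · rw [stk_cons_of_ne _ _ h2, ih]
          split_ifs <;> omega

lemma head_right (s : List Bool) {x : ℤ} (hx : pos s < x) : hf (stk s x) = true := by
  induction s with
  | nil => rfl
  | cons d s ih =>
    by_cases h1 : x = pos s
    · subst h1
      rw [stk_cons_self]
      cases d
      · rfl
      · simp only [pos, stp, if_true] at hx; omega
    · rw [stk_cons_of_ne _ _ h1]
      apply ih
      cases d
      · simp only [pos, stp, Bool.false_eq_true, if_false] at hx; omega
      · simp only [pos, stp, if_true] at hx; omega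

lemma head_left (s : List Bool) {x : ℤ} (hx : x < pos s) : hf ((stk s x).map not) = true := by
  induction s with
  | nil => rfl
  | cons d s ih =>
    by_cases h1 : x = pos s
    · subst h1
      rw [stk_cons_self]
      cases d
      · simp only [pos, stp, Bool.false_eq_true, if_false] at hx; omega
      · rfl
    · rw [stk_cons_of_ne _ _ h1]
      apply ih
      cases d
      · simp only [pos, stp, Bool.false_eq_true, if_false] at hx; omega
      · simp only [pos, stp, if_true] at hx; omega

lemma stk_suffix (a u : List Bool) (x : ℤ) : stk u x <:+ stk (a ++ u) x := by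
  induction a with
  | nil => exact List.suffix_refl _
  | cons d a ih =>
    rw [List.cons_append]
    by_cases h : x = pos (a ++ u)
    · subst h
      rw [stk_cons_self]
      exact ih.trans (List.suffix_cons _ _)
    · rw [stk_cons_of_ne _ _ h]; exact ih

lemma stk_inj_aux (n : ℕ) : ∀ (a b u : List Bool), a.length = n → b.length = n →
    stk (a ++ u) = stk (b ++ u) → a = b := by
  induction n with
  | zero =>
    intro a b u ha hb _
    rw [List.length_eq_zero_iff.1 ha, List.length_eq_zero_iff.1 hb]
  | succ n ih =>
    intro a b u ha hb hab
    have hane : a ≠ [] := by intro h; subst h; simp at ha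
    have hbne : b ≠ [] := by intro h; subst h; simp at hb
    obtain ⟨a', d, rfl⟩ : ∃ a' d, a = a' ++ [d] := ⟨a.dropLast, a.getLast hane,
      (List.dropLast_append_getLast hane).symm⟩
    obtain ⟨b', e, rfl⟩ : ∃ b' e, b = b' ++ [e] := ⟨b.dropLast, b.getLast hbne,
      (List.dropLast_append_getLast hbne).symm⟩
    simp only [List.length_append, List.length_cons, List.length_nil] at ha hb
    have e1 : a' ++ [d] ++ u = a' ++ (d :: u) := by simp
    have e2 : b' ++ [e] ++ u = b' ++ (e :: u) := by simp
    rw [e1, e2] at hab
    have s1 := stk_suffix a' (d :: u) (pos u)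
    have s2 := stk_suffix b' (e :: u) (pos u)
    rw [hab] at s1
    rw [stk_cons_self] at s1 s2
    have hde : d :: stk u (pos u) = e :: stk u (pos u) := by
      have := List.suffix_of_suffix_length_le s1 s2 (by simp)
      exact this.eq_of_length (by simp)
    have hde' : d = e := by simpa using hde
    subst hde'
    rw [ih a' b' (d :: u) (by omega) (by omega) hab]

lemma stk_inj {s t : List Bool} (hl : s.length = t.length) (h : stk s = stk t) : s = t :=
  stk_inj_aux t.length s t [] hl rfl (by simpa using h)

/-- prepend a word to a family -/
def consF (b : List Bool) (f : ℕ → List Bool) : ℕ → List Bool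
  | 0 => b
  | (i + 1) => f i

open Classical in
/-- families of words satisfying the matching conditions -/
noncomputable def Fam (n : ℕ) : ℕ → ℕ → Finset (ℕ → List Bool)
  | 0, k => if k = 0 then {fun _ => []} else ∅
  | (M + 1), k => (wordsLE n).biUnion (fun b =>
      if hf b = true ∧ b.count false = k then (Fam n M (b.count true)).image (consF b) else ∅)

lemma sum_Fam (w : List Bool → ℝ) (n M k : ℕ) :
    ∑ f ∈ Fam n M k, ∏ i ∈ Finset.range M, w (f i) = G w n M k := by
  classical
  induction M generalizing k with
  | zero =>
    simp only [Fam, G]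
    split_ifs <;> simp
  | succ M ih =>
    simp only [Fam, G]
    rw [Finset.sum_biUnion]
    · apply Finset.sum_congr rfl
      intro b _
      split_ifs with hb
      · rw [Finset.sum_image]
        · rw [← ih, Finset.mul_sum]
          apply Finset.sum_congr rfl
          intro f _
          rw [Finset.prod_range_succ']
          simp only [consF]
          ring
        · intro f _ g _ hfg
          funext i
          have := congrFun hfg (i + 1)
          simpa [consF] using this
      · simp
    · intro a _ b _ hab
      rw [Function.onFun, Finset.disjoint_left]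
      intro f hfa hfb
      split_ifs at hfa hfb
      · rw [Finset.mem_image] at hfa hfb
        obtain ⟨g, _, rfl⟩ := hfa
        obtain ⟨g', _, hg'⟩ := hfb
        have := congrFun hg' 0
        simp only [consF] at this
        exact hab this.symm
      all_goals simp at hfa hfb

lemma mem_Fam (n M : ℕ) : ∀ (k : ℕ) (f : ℕ → List Bool), (∀ i, (f i).length ≤ n) →
    (∀ i, hf (f i) = true) → (f 0).count false = k →
    (∀ i, (f (i + 1)).count false = (f i).count true) → (∀ i, M ≤ i → f i = []) →
    f ∈ Fam n M k := by
  classical
  induction M with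
  | zero =>
    intro k f _ _ hk _ hnil
    have : f = fun _ => [] := by funext i; exact hnil i (Nat.zero_le _)
    subst this
    simp only [List.count_nil] at hk
    simp [Fam, ← hk]
  | succ M ih =>
    intro k f hlen hhf hk hbal hnil
    simp only [Fam, Finset.mem_biUnion]
    refine ⟨f 0, mem_wordsLE.2 (hlen 0), ?_⟩
    rw [if_pos ⟨hhf 0, hk⟩, Finset.mem_image]
    refine ⟨fun i => f (i + 1), ?_, ?_⟩
    · exact ih _ (fun i => f (i + 1)) (fun i => hlen _) (fun i => hhf _) (hbal 0)
        (fun i => hbal _) (fun i hi => hnil _ (by omega))
    · funext i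
      cases i <;> rfl

lemma prod_Icc_int (F : ℤ → ℝ) (n : ℕ) :
    ∏ x ∈ Finset.Icc (-(n:ℤ)) n, F x
      = F 0 * (∏ i ∈ Finset.range n, F ((i:ℤ) + 1)) * ∏ i ∈ Finset.range n, F (-((i:ℤ) + 1)) := by
  induction n with
  | zero => simp
  | succ n ih =>
    have h : Finset.Icc (-((n+1 : ℕ):ℤ)) ((n+1 : ℕ):ℤ)
        = insert ((n:ℤ) + 1) (insert (-((n:ℤ) + 1)) (Finset.Icc (-(n:ℤ)) n)) := by
      ext x
      simp only [Finset.mem_Icc, Finset.mem_insert]
      push_cast
      omega
    rw [h, Finset.prod_insert, Finset.prod_insert, ih, Finset.prod_range_succ,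
      Finset.prod_range_succ]
    · ring
    · simp only [Finset.mem_Icc]; omega
    · simp only [Finset.mem_insert, Finset.mem_Icc]; omega

lemma count_false_map_not (b : List Bool) : (b.map not).count false = b.count true := by
  induction b with
  | nil => rfl
  | cons d b ih => cases d <;> simp [ih]

lemma count_true_map_not (b : List Bool) : (b.map not).count true = b.count false := by
  induction b with
  | nil => rfl
  | cons d b ih => cases d <;> simp [ih]

/-- a triple of a word and two families -/
abbrev TT : Type := Σ _ : List Bool, (ℕ → List Bool) × (ℕ → List Bool)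

theorem loops_le (w : List Bool → ℝ) (hw0 : ∀ b, 0 ≤ w b) (n : ℕ) :
    ∑ s ∈ (words n).filter (fun s => pos s = 0), ∏ x ∈ Finset.Icc (-(n:ℤ)) n, w (stk s x)
      ≤ ∑ b ∈ wordsLE n, w b * G w n n (b.count true)
          * G (fun b => w (b.map not)) n n (b.count false) := by
  classical
  let Φ : List Bool → TT := fun s => ⟨stk s 0, (fun i => stk s ((i:ℤ) + 1),
    fun i => (stk s (-((i:ℤ) + 1))).map not)⟩
  let F : TT → ℝ := fun y => w y.1 * (∏ i ∈ Finset.range n, w (y.2.1 i))
    * ∏ i ∈ Finset.range n, w ((y.2.2 i).map not)
  let S : Finset TT := (wordsLE n).sigma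
    (fun b => Fam n n (b.count true) ×ˢ Fam n n (b.count false))
  have hnotnot : ∀ b : List Bool, (b.map not).map not = b := by
    intro b
    have hc : (not ∘ not) = id := by funext x; simp
    rw [List.map_map, hc, List.map_id]
  have h1 : ∑ s ∈ (words n).filter (fun s => pos s = 0),
      ∏ x ∈ Finset.Icc (-(n:ℤ)) n, w (stk s x)
      = ∑ s ∈ (words n).filter (fun s => pos s = 0), F (Φ s) := by
    apply Finset.sum_congr rfl
    intro s _
    rw [prod_Icc_int (fun x => w (stk s x)) n]
    simp only [F, Φ, hnotnot]
  have hinj : Set.InjOn Φ ((words n).filter (fun s => pos s = 0) : Finset (List Bool)) := by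
    intro s hs t ht hst
    simp only [Finset.coe_filter, Set.mem_ofPred_eq, mem_words] at hs ht
    apply stk_inj (hs.1.trans ht.1.symm)
    simp only [Φ, Sigma.mk.injEq, heq_eq_eq, Prod.mk.injEq] at hst
    funext x
    rcases lt_trichotomy x 0 with hx | hx | hx
    · obtain ⟨i, rfl⟩ : ∃ i : ℕ, x = -((i:ℤ) + 1) := ⟨(-x - 1).toNat, by omega⟩
      have := congrFun hst.2.2 i
      have h2 := congrArg (List.map not) this
      rwa [hnotnot, hnotnot] at h2
    · subst hx; exact hst.1
    · obtain ⟨i, rfl⟩ : ∃ i : ℕ, x = (i:ℤ) + 1 := ⟨(x - 1).toNat, by omega⟩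
      exact congrFun hst.2.1 i
  rw [h1, ← Finset.sum_image hinj]
  have hsub : ((words n).filter (fun s => pos s = 0)).image Φ ⊆ S := by
    intro y hy
    rw [Finset.mem_image] at hy
    obtain ⟨s, hs, rfl⟩ := hy
    rw [Finset.mem_filter, mem_words] at hs
    obtain ⟨hlen, hpos⟩ := hs
    simp only [S, Φ, Finset.mem_sigma, Finset.mem_product]
    refine ⟨mem_wordsLE.2 (hlen ▸ length_stk_le s 0), ?_, ?_⟩
    · apply mem_Fam
      · intro i; exact hlen ▸ length_stk_le s _
      · intro i; exact head_right s (by rw [hpos]; omega)
      · have := balance s 0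
        rw [hpos, if_neg (by norm_num), sub_zero] at this
        have e : (((0:ℕ):ℤ) + 1) = 0 + 1 := by norm_num
        rw [e]
        omega
      · intro i
        have := balance s ((i:ℤ) + 1)
        rw [hpos, if_neg (by omega)] at this
        push_cast at this ⊢
        omega
      · intro i hi
        apply stk_eq_nil
        rw [hlen, abs_of_nonneg (by omega)]; omega
    · apply mem_Fam
      · intro i; rw [List.length_map]; exact hlen ▸ length_stk_le s _
      · intro i; exact head_left s (by rw [hpos]; omega)
      · rw [count_false_map_not]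
        have := balance s (-1)
        rw [hpos, if_pos (by norm_num), sub_self] at this
        have e1 : -(((0:ℕ):ℤ) + 1) = -1 := by norm_num
        have e2 : (-1:ℤ) + 1 = 0 := by norm_num
        rw [e2] at this
        rw [e1]
        omega
      · intro i
        rw [count_false_map_not, count_true_map_not]
        have := balance s (-((i:ℤ) + 1 + 1))
        have e : -((i:ℤ) + 1 + 1) + 1 = -((i:ℤ) + 1) := by ring
        rw [hpos, e] at this
        push_cast
        omega
      · intro i hi
        rw [stk_eq_nil s]
        · rfl
        · rw [hlen, abs_neg, abs_of_nonneg (by omega)]; omega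
  have hF0 : ∀ y, 0 ≤ F y := fun y => mul_nonneg (mul_nonneg (hw0 _)
    (Finset.prod_nonneg (fun i _ => hw0 _))) (Finset.prod_nonneg (fun i _ => hw0 _))
  refine (Finset.sum_le_sum_of_subset_of_nonneg hsub (fun y _ _ => hF0 y)).trans (le_of_eq ?_)
  simp only [S]
  rw [Finset.sum_sigma]
  apply Finset.sum_congr rfl
  intro b _
  simp only [F]
  rw [Finset.sum_product, ← sum_Fam, ← sum_Fam, mul_assoc, Finset.sum_mul_sum, Finset.mul_sum]
  apply Finset.sum_congr rfl
  intro f _
  rw [Finset.mul_sum]
  apply Finset.sum_congr rfl
  intro g _
  ring

end R109.ERW
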