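import Pool.Agent.R109.ERW.Paths

/-!
The averaged law of the path of an excited random walk.
-/

namespace R109.ERW

open MeasureTheory Finset

variable {N : ℕ} {K : Fin N → Fin N → ℝ} {p η : Fin N → ℝ}

/-- positions along the list of steps `s` (newest first) -/
def pth (s : List Bool) (i : ℕ) : ℤ := pos (s.drop (s.length - i))

lemma pth_cons (d : Bool) (s : List Bool) {i : ℕ} (hi : i ≤ s.length) :
    pth (d :: s) i = pth s i := by
  simp only [pth, List.length_cons]
  have : s.length + 1 - i = (s.length - i) + 1 := by omega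
  rw [this, List.drop_succ_cons]

lemma pth_length (s : List Bool) : pth s s.length = pos s := by simp [pth]

lemma pth_cons_length (d : Bool) (s : List Bool) :
    pth (d :: s) (s.length + 1) = pos s + stp d := by simp [pth, pos]

lemma card_visits (s : List Bool) (x : ℤ) :
    ((Finset.range s.length).filter (fun k => pth s k = x)).card = (stk s x).length := by
  induction s with
  | nil => simp [stk]
  | cons d s ih =>
    rw [List.length_cons, Finset.range_add_one, Finset.filter_insert]
    have h1 : (Finset.range s.length).filter (fun k => pth (d :: s) k = x)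
        = (Finset.range s.length).filter (fun k => pth s k = x) := by
      apply Finset.filter_congr
      intro k hk
      rw [pth_cons d s (Finset.mem_range.1 hk).le]
    rw [h1, pth_cons d s le_rfl, pth_length]
    by_cases h : pos s = x
    · subst h
      rw [if_pos rfl, Finset.card_insert_of_notMem (by simp), ih, stk_cons_self]
      simp
    · rw [if_neg h, ih, stk_cons_of_ne _ _ (Ne.symm h)]

lemma visitsBefore_pth (s : List Bool) :
    visitsBefore (pth s) s.length = (stk s (pos s)).length := by
  rw [visitsBefore, pth_length, card_visits]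

/-- probability of the departures `b` given the cookies `ρ` -/
def sp (p : Fin N → ℝ) : List Bool → (ℕ → Fin N) → ℝ
  | [], _ => 1
  | (d :: b), ρ => sp p b ρ * lp p d (ρ b.length)

lemma prod_sp_cons (F : Finset ℤ) (ρ : ℤ → ℕ → Fin N) (d : Bool) (s : List Bool)
    (hF : pos s ∈ F) :
    ∏ y ∈ F, sp p (stk (d :: s) y) (ρ y)
      = lp p d (ρ (pos s) (stk s (pos s)).length) * ∏ y ∈ F, sp p (stk s y) (ρ y) := by
  rw [← Finset.mul_prod_erase _ _ hF, ← Finset.mul_prod_erase _ _ hF]
  have : ∏ x ∈ F.erase (pos s), sp p (stk (d :: s) x) (ρ x)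
      = ∏ x ∈ F.erase (pos s), sp p (stk s x) (ρ x) := by
    apply Finset.prod_congr rfl
    intro x hx
    rw [stk_cons_of_ne _ _ (Finset.ne_of_mem_erase hx)]
  rw [this, stk_cons_self, sp]
  ring

variable {Ω : Type*} [MeasurableSpace Ω] {P : Measure Ω} [IsProbabilityMeasure P]
  {R : ℤ → ℕ → Ω → Fin N} {X : ℕ → Ω → ℤ}

lemma meas_env (h : IsERW K p η P R X) (F : Finset ℤ) (L : ℕ) (ρ : ℤ → ℕ → Fin N) :
    MeasurableSet {ω | ∀ y ∈ F, ∀ j ≤ L, R y j ω = ρ y j} := by
  have : {ω | ∀ y ∈ F, ∀ j ≤ L, R y j ω = ρ y j}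
      = ⋂ y ∈ F, ⋂ j ∈ Finset.range (L + 1), (R y j) ⁻¹' {ρ y j} := by
    ext ω; simp
  rw [this]
  refine Finset.measurableSet_biInter _ (fun y _ => Finset.measurableSet_biInter _ (fun j _ => ?_))
  exact h.measurable_R y j (measurableSet_singleton _)

lemma meas_path (h : IsERW K p η P R X) (n : ℕ) (x : ℕ → ℤ) :
    MeasurableSet {ω | ∀ i ≤ n, X i ω = x i} := by
  have : {ω | ∀ i ≤ n, X i ω = x i}
      = ⋂ i ∈ Finset.range (n + 1), (X i) ⁻¹' {x i} := by
    ext ω; simp
  rw [this]
  refine Finset.measurableSet_biInter _ (fun i _ => ?_)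
  exact h.measurable_X i (measurableSet_singleton _)

lemma joint_law (h : IsERW K p η P R X) (n : ℕ) (F : Finset ℤ)
    (hF : Finset.Icc (-(n:ℤ)) n ⊆ F) (L : ℕ) (hL : n ≤ L) (ρ : ℤ → ℕ → Fin N)
    (s : List Bool) (hs : s.length ≤ n) :
    P.real {ω | (∀ y ∈ F, ∀ j ≤ L, R y j ω = ρ y j) ∧ (∀ i ≤ s.length, X i ω = pth s i)}
      = P.real {ω | ∀ y ∈ F, ∀ j ≤ L, R y j ω = ρ y j} * ∏ y ∈ F, sp p (stk s y) (ρ y) := by
  induction s with
  | nil =>
    simp only [stk, sp, Finset.prod_const_one, mul_one]
    apply measureReal_congr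
    filter_upwards [h.start] with ω hω
    apply propext
    constructor
    · rintro ⟨h1, _⟩; exact h1
    · intro h1
      refine ⟨h1, ?_⟩
      intro i hi
      simp only [List.length_nil, Nat.le_zero] at hi
      subst hi
      rw [hω]; rfl
  | cons d s ih =>
    simp only [List.length_cons] at hs
    have ih' := ih (by omega)
    have hposF : pos s ∈ F := by
      apply hF
      have := abs_le.1 (abs_pos_le s)
      have h2 : (s.length : ℤ) ≤ n := by exact_mod_cast (by omega : s.length ≤ n)
      rw [Finset.mem_Icc]; constructor <;> linarith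
    have hvis : visitsBefore (pth s) s.length ≤ L := by
      rw [visitsBefore_pth]
      have := length_stk_le s (pos s)
      omega
    have hq := h.quenched_law F L ρ s.length (pth s) (by rw [pth_length]; exact hposF) hvis
    rw [visitsBefore_pth, pth_length, ih'] at hq
    rw [prod_sp_cons F ρ d s hposF]
    have hset : {ω | (∀ y ∈ F, ∀ j ≤ L, R y j ω = ρ y j) ∧
        (∀ i ≤ (d :: s).length, X i ω = pth (d :: s) i)}
        = {ω | (∀ y ∈ F, ∀ j ≤ L, R y j ω = ρ y j) ∧ (∀ i ≤ s.length, X i ω = pth s i) ∧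
          X (s.length + 1) ω = pos s + stp d} := by
      ext ω
      simp only [Set.mem_ofPred_eq, List.length_cons]
      constructor
      · rintro ⟨h1, h2⟩
        refine ⟨h1, ?_, ?_⟩
        · intro i hi
          rw [h2 i (by omega), pth_cons d s hi]
        · rw [h2 _ le_rfl, pth_cons_length]
      · rintro ⟨h1, h2, h3⟩
        refine ⟨h1, ?_⟩
        intro i hi
        rcases Nat.lt_or_ge s.length i with hlt | hge
        · have : i = s.length + 1 := by omega
          subst this
          rw [h3, pth_cons_length]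
        · rw [h2 i hge, pth_cons d s hge]
    rw [hset]
    cases d
    · -- left step
      have hmeas1 : MeasurableSet {ω | (∀ y ∈ F, ∀ j ≤ L, R y j ω = ρ y j) ∧
          (∀ i ≤ s.length, X i ω = pth s i) ∧ X (s.length + 1) ω = pos s + 1} := by
        have e : {ω | (∀ y ∈ F, ∀ j ≤ L, R y j ω = ρ y j) ∧
          (∀ i ≤ s.length, X i ω = pth s i) ∧ X (s.length + 1) ω = pos s + 1}
          = {ω | ∀ y ∈ F, ∀ j ≤ L, R y j ω = ρ y j} ∩ ({ω | ∀ i ≤ s.length, X i ω = pth s i}
            ∩ (X (s.length + 1)) ⁻¹' {pos s + 1}) := by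
          ext ω; simp
        rw [e]
        exact (meas_env h F L ρ).inter ((meas_path h _ _).inter
          (h.measurable_X _ (measurableSet_singleton _)))
      have hsum : P.real {ω | (∀ y ∈ F, ∀ j ≤ L, R y j ω = ρ y j) ∧
          (∀ i ≤ s.length, X i ω = pth s i)}
          = P.real {ω | (∀ y ∈ F, ∀ j ≤ L, R y j ω = ρ y j) ∧
              (∀ i ≤ s.length, X i ω = pth s i) ∧ X (s.length + 1) ω = pos s + stp false}
            + P.real {ω | (∀ y ∈ F, ∀ j ≤ L, R y j ω = ρ y j) ∧
              (∀ i ≤ s.length, X i ω = pth s i) ∧ X (s.length + 1) ω = pos s + 1} := by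
        rw [← measureReal_union _ hmeas1]
        · apply measureReal_congr
          filter_upwards [h.moves s.length] with ω hω
          apply propext
          constructor
          · rintro ⟨h1, h2⟩
            rw [h2 s.length le_rfl, pth_length] at hω
            rcases hω with hω | hω
            · right; exact ⟨h1, h2, hω⟩
            · left; refine ⟨h1, h2, ?_⟩
              rw [hω]; simp [stp]; ring
          · rintro (⟨h1, h2, _⟩ | ⟨h1, h2, _⟩)
            · exact ⟨h1, h2⟩
            · exact ⟨h1, h2⟩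
        · rw [Set.disjoint_left]
          rintro ω ⟨_, _, h3⟩ ⟨_, _, h4⟩
          rw [h3] at h4
          simp [stp] at h4
      rw [ih', hq] at hsum
      simp only [lp, Bool.false_eq_true, if_false]
      linarith
    · simp only [stp, if_true, lp]
      rw [hq]; ring

/-- extension of a finite pattern -/
def ext (L : ℕ) (τ : Fin (L + 1) → Fin N) (j : ℕ) : Fin N := τ ⟨min j L, by omega⟩

lemma ext_of_le {L : ℕ} (τ : Fin (L + 1) → Fin N) {j : ℕ} (hj : j ≤ L) :
    ext L τ j = τ ⟨j, by omega⟩ := by
  simp only [ext, min_eq_left hj]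

lemma ext_snoc_of_le {L : ℕ} (τ : Fin (L + 1) → Fin N) (a : Fin N) {j : ℕ} (hj : j ≤ L) :
    ext (L + 1) (Fin.snoc (α := fun _ => Fin N) τ a) j = ext L τ j := by
  rw [ext_of_le _ (by omega : j ≤ L + 1), ext_of_le _ hj]
  simp [Fin.snoc, hj]

lemma ext_snoc_last {L : ℕ} (τ : Fin (L + 1) → Fin N) (a : Fin N) :
    ext (L + 1) (Fin.snoc (α := fun _ => Fin N) τ a) (L + 1) = a := by
  rw [ext_of_le _ le_rfl]
  simp [Fin.snoc]

/-- weight of a pattern -/
def chw (K : Fin N → Fin N → ℝ) (η : Fin N → ℝ) (L : ℕ) (τ : ℕ → Fin N) : ℝ :=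
  η (τ 0) * ∏ j ∈ Finset.range L, K (τ j) (τ (j + 1))

lemma sp_congr (b : List Bool) {τ τ' : ℕ → Fin N} (h : ∀ j < b.length, τ j = τ' j) :
    sp p b τ = sp p b τ' := by
  induction b with
  | nil => rfl
  | cons d b ih =>
    simp only [sp]
    rw [ih (fun j hj => h j (by simp only [List.length_cons]; omega)),
      h b.length (by simp)]

lemma sum_succ (L : ℕ) (b : List Bool) (hb : b.length ≤ L) (u : Fin N → ℝ) :
    ∑ τ : Fin (L + 2) → Fin N, chw K η (L + 1) (ext (L + 1) τ) * sp p b (ext (L + 1) τ)
        * u (ext (L + 1) τ (L + 1))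
      = ∑ τ : Fin (L + 1) → Fin N, chw K η L (ext L τ) * sp p b (ext L τ)
        * ∑ a, K (ext L τ L) a * u a := by
  rw [← (Fin.snocEquiv (fun _ : Fin (L + 2) => Fin N)).sum_comp, Fintype.sum_prod_type_right]
  apply Finset.sum_congr rfl
  intro τ _
  rw [Finset.mul_sum]
  apply Finset.sum_congr rfl
  intro a _
  have e : (Fin.snocEquiv (fun _ : Fin (L + 2) => Fin N)) (a, τ)
      = Fin.snoc (α := fun _ => Fin N) τ a := rfl
  rw [e, ext_snoc_last]
  have h1 : sp p b (ext (L + 1) (Fin.snoc (α := fun _ => Fin N) τ a)) = sp p b (ext L τ) := by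
    apply sp_congr
    intro j hj
    exact ext_snoc_of_le τ a (by omega)
  have h2 : chw K η (L + 1) (ext (L + 1) (Fin.snoc (α := fun _ => Fin N) τ a))
      = chw K η L (ext L τ) * K (ext L τ L) a := by
    simp only [chw]
    rw [Finset.prod_range_succ, ext_snoc_last, ext_snoc_of_le τ a (Nat.zero_le L),
      ext_snoc_of_le τ a le_rfl]
    have : ∏ x ∈ Finset.range L, K (ext (L + 1) (Fin.snoc (α := fun _ => Fin N) τ a) x)
          (ext (L + 1) (Fin.snoc (α := fun _ => Fin N) τ a) (x + 1))
        = ∏ x ∈ Finset.range L, K (ext L τ x) (ext L τ (x + 1)) := by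
      apply Finset.prod_congr rfl
      intro x hx
      have := Finset.mem_range.1 hx
      rw [ext_snoc_of_le τ a (by omega), ext_snoc_of_le τ a (by omega)]
    rw [this]; ring
  rw [h1, h2]; ring

lemma sum_vec (b : List Bool) : ∀ u : Fin N → ℝ,
    ∑ τ : Fin (b.length + 1) → Fin N, chw K η b.length (ext b.length τ)
      * sp p b (ext b.length τ) * u (ext b.length τ b.length) = ∑ r, vec K p η b r * u r := by
  induction b with
  | nil =>
    intro u
    simp only [List.length_nil, sp, chw, Finset.range_zero, Finset.prod_empty, mul_one, vec]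
    rw [← (Equiv.funUnique (Fin 1) (Fin N)).symm.sum_comp]
    apply Finset.sum_congr rfl
    intro r _
    rfl
  | cons d b ih =>
    intro u
    have h1 : ∀ τ : ℕ → Fin N, sp p (d :: b) τ = sp p b τ * lp p d (τ b.length) := fun τ => rfl
    simp only [List.length_cons]
    have h2 : ∀ τ : Fin (b.length + 2) → Fin N,
        chw K η (b.length + 1) (ext (b.length + 1) τ) * sp p (d :: b) (ext (b.length + 1) τ)
          * u (ext (b.length + 1) τ (b.length + 1))
        = chw K η (b.length + 1) (ext (b.length + 1) τ) * (sp p b (ext (b.length + 1) τ)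
          * lp p d (ext (b.length + 1) τ b.length)) * u (ext (b.length + 1) τ (b.length + 1)) := by
      intro τ; rw [h1]
    rw [Finset.sum_congr rfl (fun τ _ => h2 τ)]
    rw [← (Fin.snocEquiv (fun _ : Fin (b.length + 2) => Fin N)).sum_comp,
      Fintype.sum_prod_type_right]
    have h3 := ih (fun r => lp p d r * ∑ a, K r a * u a)
    have h4 : ∑ r, vec K p η b r * (lp p d r * ∑ a, K r a * u a)
        = ∑ s, vec K p η (d :: b) s * u s := by
      simp only [vec, Finset.mul_sum, Finset.sum_mul]
      rw [Finset.sum_comm]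
      apply Finset.sum_congr rfl; intro r _
      apply Finset.sum_congr rfl; intro s _
      ring
    rw [← h4, ← h3]
    apply Finset.sum_congr rfl
    intro τ _
    rw [Finset.mul_sum, Finset.mul_sum]
    apply Finset.sum_congr rfl
    intro a _
    have e : (Fin.snocEquiv (fun _ : Fin (b.length + 2) => Fin N)) (a, τ)
        = Fin.snoc (α := fun _ => Fin N) τ a := rfl
    rw [e, ext_snoc_last]
    have h5 : sp p b (ext (b.length + 1) (Fin.snoc (α := fun _ => Fin N) τ a))
        = sp p b (ext b.length τ) := by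
      apply sp_congr
      intro j hj
      exact ext_snoc_of_le τ a (by omega)
    have h6 : chw K η (b.length + 1) (ext (b.length + 1) (Fin.snoc (α := fun _ => Fin N) τ a))
        = chw K η b.length (ext b.length τ) * K (ext b.length τ b.length) a := by
      simp only [chw]
      rw [Finset.prod_range_succ, ext_snoc_last, ext_snoc_of_le τ a (Nat.zero_le _),
        ext_snoc_of_le τ a le_rfl]
      have : ∏ x ∈ Finset.range b.length,
            K (ext (b.length + 1) (Fin.snoc (α := fun _ => Fin N) τ a) x)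
            (ext (b.length + 1) (Fin.snoc (α := fun _ => Fin N) τ a) (x + 1))
          = ∏ x ∈ Finset.range b.length, K (ext b.length τ x) (ext b.length τ (x + 1)) := by
        apply Finset.prod_congr rfl
        intro x hx
        have := Finset.mem_range.1 hx
        rw [ext_snoc_of_le τ a (by omega), ext_snoc_of_le τ a (by omega)]
      rw [this]; ring
    rw [h5, h6, ext_snoc_of_le τ a le_rfl]; ring

lemma sum_W (hK : IsStochastic K) (b : List Bool) (L : ℕ) (hb : b.length ≤ L) :
    ∑ τ : Fin (L + 1) → Fin N, chw K η L (ext L τ) * sp p b (ext L τ) = W K p η b := by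
  induction L, hb using Nat.le_induction with
  | base =>
    have := sum_vec (K := K) (p := p) (η := η) b (fun _ => 1)
    simpa [W] using this
  | succ L hL ih =>
    have := sum_succ (K := K) (p := p) (η := η) L b hL (fun _ => 1)
    simp only [mul_one, hK.2] at this
    rw [this, ih]

theorem path_law (hN : 0 < N) (hK : IsStochastic K) (h : IsERW K p η P R X) (n : ℕ)
    (F : Finset ℤ) (hF : Finset.Icc (-(n:ℤ)) n ⊆ F) (s : List Bool) (hs : s.length ≤ n) :
    P.real {ω | ∀ i ≤ s.length, X i ω = pth s i} = ∏ y ∈ F, W K p η (stk s y) := by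
  classical
  let r0 : Fin N := ⟨0, hN⟩
  let Z : Ω → (F → Fin (n + 1) → Fin N) := fun ω y j => R y j ω
  let ρ : (F → Fin (n + 1) → Fin N) → ℤ → ℕ → Fin N :=
    fun σ y j => if hy : y ∈ F then ext n (σ ⟨y, hy⟩) j else r0
  set B : Set Ω := {ω | ∀ i ≤ s.length, X i ω = pth s i} with hB
  have hBm : MeasurableSet B := meas_path h _ _
  have hZ : ∀ σ, MeasurableSet (Z ⁻¹' {σ}) := by
    intro σ
    have hZm : Measurable Z :=
      measurable_pi_lambda _ (fun y => measurable_pi_lambda _ (fun j => h.measurable_R y j))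
    exact hZm (measurableSet_singleton σ)
  have hset : ∀ σ, Z ⁻¹' {σ} = {ω | ∀ y ∈ F, ∀ j ≤ n, R y j ω = ρ σ y j} := by
    intro σ
    ext ω
    simp only [Set.mem_preimage, Set.mem_singleton_iff, Set.mem_ofPred_eq]
    constructor
    · intro hσ y hy j hj
      simp only [ρ, dif_pos hy]
      rw [ext_of_le _ hj, ← hσ]
    · intro hσ
      funext y j
      have := hσ y.1 y.2 j (by omega)
      simp only [ρ, dif_pos y.2] at this
      rw [ext_of_le _ (by omega)] at this
      exact this
  have h1 : P.real B = ∑ σ, P.real ({ω | ∀ y ∈ F, ∀ j ≤ n, R y j ω = ρ σ y j} ∩ B) := by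
    have := sum_measureReal_preimage_singleton (μ := P.restrict B) (Finset.univ) (f := Z)
      (fun σ _ => hZ σ)
    rw [Finset.coe_univ, Set.preimage_univ] at this
    rw [measureReal_restrict_apply MeasurableSet.univ, Set.univ_inter] at this
    rw [← this]
    apply Finset.sum_congr rfl
    intro σ _
    rw [measureReal_restrict_apply (hZ σ), hset σ]
  rw [h1]
  have h2 : ∀ σ, P.real ({ω | ∀ y ∈ F, ∀ j ≤ n, R y j ω = ρ σ y j} ∩ B)
      = ∏ y : F, (chw K η n (ext n (σ y)) * sp p (stk s y) (ext n (σ y))) := by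
    intro σ
    have := joint_law h n F hF n le_rfl (ρ σ) s hs
    have e : {ω | ∀ y ∈ F, ∀ j ≤ n, R y j ω = ρ σ y j} ∩ B
        = {ω | (∀ y ∈ F, ∀ j ≤ n, R y j ω = ρ σ y j) ∧ (∀ i ≤ s.length, X i ω = pth s i)} := rfl
    rw [e, this, h.env_law, ← Finset.prod_mul_distrib, ← Finset.prod_coe_sort]
    apply Finset.prod_congr rfl
    intro y _
    have e2 : ρ σ y.1 = ext n (σ y) := by
      funext j
      simp only [ρ, dif_pos y.2]
    rw [e2]
    rfl
  rw [Finset.sum_congr rfl (fun σ _ => h2 σ)]
  have h3 := Finset.prod_univ_sum (fun _ : F => (Finset.univ : Finset (Fin (n + 1) → Fin N)))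
    (fun y τ => chw K η n (ext n τ) * sp p (stk s y) (ext n τ))
  rw [Fintype.piFinset_univ] at h3
  rw [← h3, ← Finset.prod_coe_sort F (fun y => W K p η (stk s y))]
  apply Finset.prod_congr rfl
  intro y _
  exact sum_W hK _ n ((length_stk_le s y).trans hs)

end R109.ERW
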