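import Pool.Agent.R109.ERW.Chain

/-!
Words of departures from one site, their weights, and the supermartingale bound.
-/

namespace R109.ERW

open Finset

/-- all words of length `n` -/
def words : ℕ → Finset (List Bool)
  | 0 => {[]}
  | (n + 1) => (words n).image (List.cons true) ∪ (words n).image (List.cons false)

lemma mem_words {n : ℕ} {b : List Bool} : b ∈ words n ↔ b.length = n := by
  induction n generalizing b with
  | zero => simp [words]
  | succ n ih =>
    simp only [words, Finset.mem_union, Finset.mem_image]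
    constructor
    · rintro (⟨a, ha, rfl⟩ | ⟨a, ha, rfl⟩)
      · simp [ih.1 ha]
      · simp [ih.1 ha]
    · intro h
      cases b with
      | nil => simp at h
      | cons d b =>
        simp only [List.length_cons, Nat.add_right_cancel_iff] at h
        cases d
        · right; exact ⟨b, ih.2 h, rfl⟩
        · left; exact ⟨b, ih.2 h, rfl⟩

lemma sum_words_succ (F : List Bool → ℝ) (n : ℕ) :
    ∑ b ∈ words (n + 1), F b = ∑ b ∈ words n, (F (true :: b) + F (false :: b)) := by
  rw [words, Finset.sum_union, Finset.sum_image, Finset.sum_image, Finset.sum_add_distrib]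
  · intro a _ b _ h; simpa using h
  · intro a _ b _ h; simpa using h
  · rw [Finset.disjoint_left]
    intro a ha hb
    simp only [Finset.mem_image] at ha hb
    obtain ⟨x, _, rfl⟩ := ha
    obtain ⟨y, _, hy⟩ := hb
    simp at hy

/-- all words of length at most `n` -/
def wordsLE (n : ℕ) : Finset (List Bool) := (Finset.range (n + 1)).biUnion words

lemma mem_wordsLE {n : ℕ} {b : List Bool} : b ∈ wordsLE n ↔ b.length ≤ n := by
  simp [wordsLE, mem_words]

lemma sum_wordsLE (F : List Bool → ℝ) (n : ℕ) :
    ∑ b ∈ wordsLE n, F b = ∑ m ∈ Finset.range (n + 1), ∑ b ∈ words m, F b := by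
  rw [wordsLE, Finset.sum_biUnion]
  intro a _ b _ hab
  rw [Function.onFun, Finset.disjoint_left]
  intro x hx hy
  exact hab ((mem_words.1 hx).symm.trans (mem_words.1 hy))

lemma sum_wordsLE_succ (F : List Bool → ℝ) (n : ℕ) :
    ∑ b ∈ wordsLE (n + 1), F b = ∑ b ∈ wordsLE n, F b + ∑ b ∈ words (n + 1), F b := by
  rw [sum_wordsLE, sum_wordsLE, Finset.sum_range_succ]

/-- the newest letter (the head) is `false`, or the word is empty -/
def hf : List Bool → Bool
  | [] => true
  | (d :: _) => !d

lemma super_sum (F : List Bool → ℝ) (hF0 : ∀ b, 0 ≤ F b)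
    (hF : ∀ b, F (true :: b) + F (false :: b) ≤ F b) (k : ℕ) (hk : 1 ≤ k) (n : ℕ) :
    ∑ b ∈ wordsLE n, (if hf b = true ∧ b.count false = k then F b else 0)
      + ∑ b ∈ words n, (if b.count false < k then F b else 0) ≤ F [] := by
  induction n with
  | zero =>
    have h1 : wordsLE 0 = {[]} := by
      ext b; rw [mem_wordsLE]; simp
    rw [h1, words, Finset.sum_singleton, Finset.sum_singleton, if_neg, if_pos]
    · simp
    · rw [List.count_nil]; omega
    · rintro ⟨_, h⟩
      rw [List.count_nil] at h; omega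
  | succ n ih =>
    rw [sum_wordsLE_succ, sum_words_succ, sum_words_succ]
    have key : ∑ b ∈ words n, ((if hf (true :: b) = true ∧ (true :: b).count false = k
          then F (true :: b) else 0) + (if hf (false :: b) = true ∧ (false :: b).count false = k
          then F (false :: b) else 0))
        + ∑ b ∈ words n, ((if (true :: b).count false < k then F (true :: b) else 0)
          + (if (false :: b).count false < k then F (false :: b) else 0))
        ≤ ∑ b ∈ words n, (if b.count false < k then F b else 0) := by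
      rw [← Finset.sum_add_distrib]
      apply Finset.sum_le_sum
      intro b _
      have c1 : (true :: b).count false = b.count false := by simp
      have c2 : (false :: b).count false = b.count false + 1 := by simp
      rw [c1, c2]
      simp only [hf, Bool.not_true, Bool.false_eq_true, false_and, if_false, Bool.not_false,
        true_and, zero_add]
      by_cases hlt : b.count false < k
      · rw [if_pos hlt, if_pos hlt]
        have hFb := hF b
        by_cases heq : b.count false + 1 = k
        · rw [if_pos heq, if_neg (by omega)]; linarith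
        · rw [if_neg heq, if_pos (by omega)]; linarith
      · rw [if_neg hlt, if_neg hlt, if_neg (by omega), if_neg (by omega)]; simp
    linarith

variable {N : ℕ}

/-- probability of the letter `d` with the cookie `r` -/
def lp (p : Fin N → ℝ) (d : Bool) (r : Fin N) : ℝ := if d then p r else 1 - p r

/-- `vec b s` = probability that the first departures are `b` (newest first) and that the next
cookie is `s` -/
def vec (K : Fin N → Fin N → ℝ) (p η : Fin N → ℝ) : List Bool → Fin N → ℝ
  | [] => η
  | (d :: b) => fun s => ∑ r, vec K p η b r * lp p d r * K r s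

/-- `W b` = probability that the first departures are `b` (newest first) -/
def W (K : Fin N → Fin N → ℝ) (p η : Fin N → ℝ) (b : List Bool) : ℝ := ∑ r, vec K p η b r

/-- pairing with a function -/
def pr (K : Fin N → Fin N → ℝ) (p η : Fin N → ℝ) (g : Fin N → ℝ) (b : List Bool) : ℝ :=
  ∑ r, vec K p η b r * g r

variable {K : Fin N → Fin N → ℝ} {p η : Fin N → ℝ}

lemma lp_nonneg (hp : ∀ r, 0 ≤ p r ∧ p r ≤ 1) (d : Bool) (r : Fin N) : 0 ≤ lp p d r := by
  cases d
  · simp only [lp, Bool.false_eq_true, if_false]; linarith [(hp r).2]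
  · simp only [lp, if_true]; exact (hp r).1

lemma vec_nonneg (hK : IsStochastic K) (hp : ∀ r, 0 ≤ p r ∧ p r ≤ 1) (hη : IsProbVec η)
    (b : List Bool) (s : Fin N) : 0 ≤ vec K p η b s := by
  induction b generalizing s with
  | nil => exact hη.1 s
  | cons d b ih =>
    exact Finset.sum_nonneg (fun r _ => mul_nonneg (mul_nonneg (ih r) (lp_nonneg hp d r))
      (hK.1 r s))

lemma pr_cons (g : Fin N → ℝ) (d : Bool) (b : List Bool) :
    pr K p η g (d :: b) = ∑ r, vec K p η b r * (lp p d r * ∑ s, K r s * g s) := by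
  simp only [pr, vec]
  simp only [Finset.sum_mul, Finset.mul_sum]
  rw [Finset.sum_comm]
  apply Finset.sum_congr rfl; intro r _
  apply Finset.sum_congr rfl; intro s _
  ring

lemma W_cons (hK : IsStochastic K) (d : Bool) (b : List Bool) :
    W K p η (d :: b) = ∑ r, vec K p η b r * lp p d r := by
  have := pr_cons (K := K) (p := p) (η := η) (fun _ => 1) d b
  simp only [pr, mul_one] at this
  rw [W, this]
  apply Finset.sum_congr rfl; intro r _
  rw [hK.2 r, mul_one]

lemma W_nil (hη : IsProbVec η) : W K p η [] = 1 := hη.2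

lemma W_nonneg (hK : IsStochastic K) (hp : ∀ r, 0 ≤ p r ∧ p r ≤ 1) (hη : IsProbVec η)
    (b : List Bool) : 0 ≤ W K p η b :=
  Finset.sum_nonneg (fun s _ => vec_nonneg hK hp hη b s)

lemma W_split (hK : IsStochastic K) (b : List Bool) :
    W K p η (true :: b) + W K p η (false :: b) = W K p η b := by
  rw [W_cons hK, W_cons hK, W, ← Finset.sum_add_distrib]
  apply Finset.sum_congr rfl; intro r _
  simp only [lp, if_true, Bool.false_eq_true, if_false]; ring

lemma W_cons_ge (hK : IsStochastic K) (hp : ∀ r, 0 ≤ p r ∧ p r ≤ 1) (hη : IsProbVec η)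
    {δ : ℝ} (hδ : ∀ r, δ ≤ p r ∧ p r ≤ 1 - δ) (d : Bool) (b : List Bool) :
    δ * W K p η b ≤ W K p η (d :: b) := by
  rw [W_cons hK, W, Finset.mul_sum]
  apply Finset.sum_le_sum
  intro r _
  rw [mul_comm]
  apply mul_le_mul_of_nonneg_left _ (vec_nonneg hK hp hη b r)
  cases d
  · simp only [lp, Bool.false_eq_true, if_false]; linarith [(hδ r).2]
  · simp only [lp, if_true]; exact (hδ r).1

lemma W_cons_le (hK : IsStochastic K) (hp : ∀ r, 0 ≤ p r ∧ p r ≤ 1) (hη : IsProbVec η)
    {δ : ℝ} (hδ : ∀ r, δ ≤ p r ∧ p r ≤ 1 - δ) (d : Bool) (b : List Bool) :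
    W K p η (d :: b) ≤ (1 - δ) * W K p η b := by
  rw [W_cons hK, W, Finset.mul_sum]
  apply Finset.sum_le_sum
  intro r _
  rw [mul_comm (1 - δ)]
  apply mul_le_mul_of_nonneg_left _ (vec_nonneg hK hp hη b r)
  cases d
  · simp only [lp, Bool.false_eq_true, if_false]; linarith [(hδ r).1]
  · simp only [lp, if_true]; exact (hδ r).2

lemma W_replicate_ge (hK : IsStochastic K) (hp : ∀ r, 0 ≤ p r ∧ p r ≤ 1) (hη : IsProbVec η)
    {δ : ℝ} (hδ0 : 0 ≤ δ) (hδ : ∀ r, δ ≤ p r ∧ p r ≤ 1 - δ) (d : Bool) (k : ℕ) :
    δ ^ k ≤ W K p η (List.replicate k d) := by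
  induction k with
  | zero => simp [W_nil hη]
  | succ k ih =>
    rw [List.replicate_succ, pow_succ, mul_comm]
    exact (mul_le_mul_of_nonneg_left ih hδ0).trans (W_cons_ge hK hp hη hδ d _)

lemma W_replicate_le (hK : IsStochastic K) (hp : ∀ r, 0 ≤ p r ∧ p r ≤ 1) (hη : IsProbVec η)
    {δ : ℝ} (hδ1 : δ ≤ 1) (hδ : ∀ r, δ ≤ p r ∧ p r ≤ 1 - δ) (d : Bool) (k : ℕ) :
    W K p η (List.replicate k d) ≤ (1 - δ) ^ k := by
  induction k with
  | zero => simp [W_nil hη]
  | succ k ih =>
    rw [List.replicate_succ, pow_succ, mul_comm]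
    exact (W_cons_le hK hp hη hδ d _).trans (mul_le_mul_of_nonneg_left ih (by linarith))

lemma pr_nonneg (hK : IsStochastic K) (hp : ∀ r, 0 ≤ p r ∧ p r ≤ 1) (hη : IsProbVec η)
    {g : Fin N → ℝ} (hg : ∀ r, 0 ≤ g r) (b : List Bool) : 0 ≤ pr K p η g b :=
  Finset.sum_nonneg (fun s _ => mul_nonneg (vec_nonneg hK hp hη b s) (hg s))

lemma pr_ge (hK : IsStochastic K) (hp : ∀ r, 0 ≤ p r ∧ p r ≤ 1) (hη : IsProbVec η)
    {g : Fin N → ℝ} {m : ℝ} (hg : ∀ r, m ≤ g r) (b : List Bool) :
    m * W K p η b ≤ pr K p η g b := by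
  rw [W, pr, Finset.mul_sum]
  apply Finset.sum_le_sum; intro r _
  rw [mul_comm]
  exact mul_le_mul_of_nonneg_left (hg r) (vec_nonneg hK hp hη b r)

lemma pr_le (hK : IsStochastic K) (hp : ∀ r, 0 ≤ p r ∧ p r ≤ 1) (hη : IsProbVec η)
    {g : Fin N → ℝ} {m : ℝ} (hg : ∀ r, g r ≤ m) (b : List Bool) :
    pr K p η g b ≤ m * W K p η b := by
  rw [W, pr, Finset.mul_sum]
  apply Finset.sum_le_sum; intro r _
  rw [mul_comm m]
  exact mul_le_mul_of_nonneg_left (hg r) (vec_nonneg hK hp hη b r)

lemma pr_super (hK : IsStochastic K) (hp : ∀ r, 0 ≤ p r ∧ p r ≤ 1) (hη : IsProbVec η)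
    {g : Fin N → ℝ} {a1 a0 ρ : ℝ}
    (hg : ∀ r, a1 * (p r * ∑ t, K r t * g t) + a0 * ((1 - p r) * ∑ t, K r t * g t) ≤ ρ * g r)
    (b : List Bool) :
    a1 * pr K p η g (true :: b) + a0 * pr K p η g (false :: b) ≤ ρ * pr K p η g b := by
  rw [pr_cons, pr_cons, pr, Finset.mul_sum, Finset.mul_sum, Finset.mul_sum,
    ← Finset.sum_add_distrib]
  apply Finset.sum_le_sum; intro r _
  have := mul_le_mul_of_nonneg_left (hg r) (vec_nonneg hK hp hη b r)
  simp only [lp, if_true, Bool.false_eq_true, if_false]
  nlinarith [this]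

/-- block bound -/
lemma block_bound (hK : IsStochastic K) (hp : ∀ r, 0 ≤ p r ∧ p r ≤ 1) (hη : IsProbVec η)
    {g : Fin N → ℝ} {a1 a0 m Mx : ℝ} (ha1 : 0 < a1) (ha0 : 0 < a0) (hm : 0 < m)
    (hgm : ∀ r, m ≤ g r) (hgM : ∀ r, g r ≤ Mx)
    (hg : ∀ r, a1 * (p r * ∑ t, K r t * g t) + a0 * ((1 - p r) * ∑ t, K r t * g t) ≤ g r)
    (k : ℕ) (hk : 1 ≤ k) (n : ℕ) :
    ∑ b ∈ wordsLE n, (if hf b = true ∧ b.count false = k then a1 ^ (b.count true) * W K p η b
      else 0) * (m * a0 ^ k) ≤ Mx := by
  have hg0 : ∀ r, 0 ≤ g r := fun r => hm.le.trans (hgm r)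
  let F : List Bool → ℝ := fun b => a1 ^ (b.count true) * a0 ^ (b.count false) * pr K p η g b
  have hF0 : ∀ b, 0 ≤ F b := fun b => by
    have := pr_nonneg hK hp hη hg0 b
    positivity
  have hF : ∀ b, F (true :: b) + F (false :: b) ≤ F b := by
    intro b
    have h1 := pr_super (ρ := 1) hK hp hη (fun r => by simpa using hg r) b
    have h2 := mul_le_mul_of_nonneg_left h1
      (by positivity : 0 ≤ a1 ^ (b.count true) * a0 ^ (b.count false))
    have e1 : F (true :: b) = a1 ^ (b.count true) * a0 ^ (b.count false)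
        * (a1 * pr K p η g (true :: b)) := by
      simp only [F, List.count_cons_self, pow_succ]
      have : (true :: b).count false = b.count false := by simp
      rw [this]; ring
    have e0 : F (false :: b) = a1 ^ (b.count true) * a0 ^ (b.count false)
        * (a0 * pr K p η g (false :: b)) := by
      simp only [F, List.count_cons_self, pow_succ]
      have : (false :: b).count true = b.count true := by simp
      rw [this]; ring
    rw [e1, e0, ← mul_add]
    simpa [F] using h2
  have h := super_sum F hF0 hF k hk n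
  have h2 : 0 ≤ ∑ b ∈ words n, (if b.count false < k then F b else 0) := by
    apply Finset.sum_nonneg
    intro b _
    split_ifs
    · exact hF0 b
    · exact le_refl _
  have h3 : F [] ≤ Mx := by
    have := pr_le hK hp hη hgM []
    rw [W_nil hη] at this
    simpa [F] using this
  have h4 : ∑ b ∈ wordsLE n, (if hf b = true ∧ b.count false = k then
      a1 ^ (b.count true) * W K p η b else 0) * (m * a0 ^ k)
      ≤ ∑ b ∈ wordsLE n, (if hf b = true ∧ b.count false = k then F b else 0) := by
    apply Finset.sum_le_sum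
    intro b _
    by_cases hb : hf b = true ∧ b.count false = k
    · rw [if_pos hb, if_pos hb]
      have := pr_ge hK hp hη hgm b
      have h5 : (0:ℝ) ≤ a1 ^ (b.count true) * a0 ^ k := by positivity
      have h6 := mul_le_mul_of_nonneg_left this h5
      simp only [F, hb.2]
      calc a1 ^ (b.count true) * W K p η b * (m * a0 ^ k)
          = a1 ^ (b.count true) * a0 ^ k * (m * W K p η b) := by ring
        _ ≤ _ := h6
    · rw [if_neg hb, if_neg hb, zero_mul]
  linarith

lemma block_total (hK : IsStochastic K) (hp : ∀ r, 0 ≤ p r ∧ p r ≤ 1) (hη : IsProbVec η)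
    (k : ℕ) (hk : 1 ≤ k) (n : ℕ) :
    ∑ b ∈ wordsLE n, (if hf b = true ∧ b.count false = k then W K p η b else 0) ≤ 1 := by
  have h := super_sum (W K p η) (W_nonneg hK hp hη) (fun b => (W_split hK b).le) k hk n
  have h2 : 0 ≤ ∑ b ∈ words n, (if b.count false < k then W K p η b else 0) := by
    apply Finset.sum_nonneg
    intro b _
    split_ifs
    · exact W_nonneg hK hp hη b
    · exact le_refl _
  rw [W_nil hη] at h
  linarith

lemma eq_replicate_of_count {b : List Bool} (h : b.count true = 0) :
    b = List.replicate (b.count false) false := by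
  induction b with
  | nil => rfl
  | cons d b ih =>
    cases d
    · have h' : b.count true = 0 := by simpa using h
      have := ih h'
      simp only [List.count_cons_self, List.replicate_succ]
      rw [← this]
    · simp at h

/-- total weight of the words containing a `true` -/
lemma block_pos (hK : IsStochastic K) (hp : ∀ r, 0 ≤ p r ∧ p r ≤ 1) (hη : IsProbVec η)
    {δ : ℝ} (hδ0 : 0 ≤ δ) (hδ : ∀ r, δ ≤ p r ∧ p r ≤ 1 - δ) (hδ1 : δ ≤ 1)
    (k : ℕ) (hk : 1 ≤ k) (n : ℕ) :
    ∑ b ∈ wordsLE n, (if hf b = true ∧ b.count false = k ∧ 0 < b.count true then W K p η b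
      else 0) ≤ 1 - δ ^ k := by
  by_cases hkn : n < k
  · rw [Finset.sum_eq_zero]
    · have := pow_le_one₀ (n := k) hδ0 hδ1
      linarith
    · intro b hb
      rw [mem_wordsLE] at hb
      have : b.count false ≤ b.length := List.count_le_length
      rw [if_neg (by omega)]
  · push Not at hkn
    have h1 := block_total hK hp hη k hk n (p := p) (η := η)
    have hmem : List.replicate k false ∈ wordsLE n := by
      rw [mem_wordsLE]; simpa using hkn
    have h2 : ∑ b ∈ wordsLE n, (if hf b = true ∧ b.count false = k ∧ 0 < b.count true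
        then W K p η b else 0) + W K p η (List.replicate k false)
        ≤ ∑ b ∈ wordsLE n, (if hf b = true ∧ b.count false = k then W K p η b else 0) := by
      rw [← Finset.add_sum_erase _ _ hmem, ← Finset.add_sum_erase _ _ hmem]
      have hrep : hf (List.replicate k false) = true := by
        obtain ⟨j, rfl⟩ : ∃ j, k = j + 1 := ⟨k - 1, by omega⟩
        simp [List.replicate_succ, hf]
      rw [if_neg (by simp [List.count_replicate]), if_pos ⟨hrep, by simp⟩, zero_add, add_comm]
      apply add_le_add_right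
      apply Finset.sum_le_sum
      intro b _
      by_cases hb : hf b = true ∧ b.count false = k ∧ 0 < b.count true
      · rw [if_pos hb, if_pos ⟨hb.1, hb.2.1⟩]
      · rw [if_neg hb]
        split_ifs
        · exact W_nonneg hK hp hη b
        · exact le_refl _
    have h3 := W_replicate_ge hK hp hη hδ0 hδ false k
    linarith

end R109.ERW
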